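import Pool.Agent.H165R3.BPE

/-!
# Ergodic averages for two commuting maps
-/

set_option autoImplicit false

namespace Pool.Agent.K4H40.Erg

open Filter Topology MeasureTheory Set

variable {Ω : Type*} [MeasurableSpace Ω] {P : Measure Ω} [IsProbabilityMeasure P] {S T : Ω → Ω}

/-- Averages along a map. -/
noncomputable def av (S : Ω → Ω) (g : Ω → ℝ) (n : ℕ) (ω : Ω) : ℝ :=
  (n : ℝ)⁻¹ * ∑ i ∈ Finset.range n, g (S^[i] ω)

theorem abs_av_le (S : Ω → Ω) {g : Ω → ℝ} {C : ℝ} (hC : ∀ x, |g x| ≤ C) (hC0 : 0 ≤ C) (n : ℕ)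
    (ω : Ω) : |av S g n ω| ≤ C := by
  unfold av
  rw [abs_mul, abs_inv, Nat.abs_cast]
  rcases Nat.eq_zero_or_pos n with h0 | h0
  · subst h0
    simpa using hC0
  · rw [inv_mul_le_iff₀ (by exact_mod_cast h0)]
    refine (Finset.abs_sum_le_sum_abs _ _).trans ?_
    refine (Finset.sum_le_sum fun i _ => hC _).trans ?_
    rw [Finset.sum_const, Finset.card_range, nsmul_eq_mul]

theorem measurable_av (hS : Measurable S) {g : Ω → ℝ} (hg : Measurable g) (n : ℕ) :
    Measurable (av S g n) :=
  (Finset.measurable_fun_sum _ fun i _ => hg.comp (hS.iterate i)).const_mul _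

theorem comm_iterate (hST : ∀ ω, S (T ω) = T (S ω)) (i j : ℕ) (ω : Ω) :
    S^[i] (T^[j] ω) = T^[j] (S^[i] ω) :=
  (Function.Commute.iterate_iterate (f := S) (g := T) hST i j) ω

/-- A joint invariance statement. -/
theorem zero_or_one (hS : MeasurePreserving S P P) (hT : MeasurePreserving T P P)
    (hST : ∀ ω, S (T ω) = T (S ω))
    (herg : ∀ s, MeasurableSet s → S ⁻¹' s = s → T ⁻¹' s = s → P s = 0 ∨ P s = 1)
    (s : Set Ω) (hs : MeasurableSet s) (hsS : S ⁻¹' s = s) (hsT : T ⁻¹' s =ᵐ[P] s) :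
    P s = 0 ∨ P s = 1 := by
  set t := limsup (fun n => (preimage T)^[n] s) atTop with ht
  have hts : t =ᵐ[P] s := hT.quasiMeasurePreserving.limsup_preimage_iterate_ae_eq hsT
  have hmem : ∀ ω, ω ∈ t ↔ ∃ᶠ n in atTop, T^[n] ω ∈ s := by
    intro ω
    rw [ht, Filter.mem_limsup_iff_frequently_mem]
    simp only [← Set.preimage_iterate_eq, Set.mem_preimage]
  have htm : MeasurableSet t := by
    have : ∀ n, MeasurableSet ((preimage T)^[n] s) := fun n => by
      rw [← Set.preimage_iterate_eq]
      exact (hT.measurable.iterate n) hs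
    exact MeasurableSet.measurableSet_limsup this
  have htS : S ⁻¹' t = t := by
    ext ω
    rw [Set.mem_preimage, hmem, hmem]
    have h1 : ∀ n, T^[n] (S ω) ∈ s ↔ T^[n] ω ∈ s := by
      intro n
      constructor
      · intro h
        have h2 : S (T^[n] ω) ∈ s := by
          have := comm_iterate (S := S) (T := T) hST 1 n ω
          simp only [Function.iterate_one] at this
          rw [this]
          exact h
        rw [← hsS]
        exact h2
      · intro h
        have := comm_iterate (S := S) (T := T) hST 1 n ω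
        simp only [Function.iterate_one] at this
        rw [← this]
        rw [← hsS] at h
        exact h
    simp only [h1]
  have htT : T ⁻¹' t = t := by
    ext ω
    rw [Set.mem_preimage, hmem, hmem]
    have h1 : ∀ n, T^[n] (T ω) = T^[n + 1] ω := fun n => (Function.iterate_succ_apply T n ω).symm
    simp only [h1]
    constructor
    · intro h
      rw [Filter.frequently_atTop] at h ⊢
      intro a
      obtain ⟨b, hb, hb'⟩ := h a
      exact ⟨b + 1, by omega, hb'⟩
    · intro h
      rw [Filter.frequently_atTop] at h ⊢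
      intro a
      obtain ⟨b, hb, hb'⟩ := h (a + 1)
      exact ⟨b - 1, by omega, by rwa [Nat.sub_add_cancel (by omega : 1 ≤ b)]⟩
  rw [← measure_congr hts]
  exact herg t htm htS htT

/-- Averages along `S` of a `T`-invariant function converge to the integral. -/
theorem av_tendsto (hS : MeasurePreserving S P P) (hT : MeasurePreserving T P P)
    (hST : ∀ ω, S (T ω) = T (S ω))
    (herg : ∀ s, MeasurableSet s → S ⁻¹' s = s → T ⁻¹' s = s → P s = 0 ∨ P s = 1)
    {g : Ω → ℝ} (hg : Measurable g) {C : ℝ} (hC : ∀ x, |g x| ≤ C) (hgT : ∀ x, g (T x) = g x) :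
    ∀ᵐ ω ∂P, Tendsto (fun n => av S g n ω) atTop (𝓝 (∫ x, g x ∂P)) := by
  have hle := MeasurableSpace.invariants_le S
  set E := P[g | MeasurableSpace.invariants S] with hE
  have hB := Pool.Agent.H165R3.BPE.birkhoff hS g hg C hC
  have hEm : Measurable[MeasurableSpace.invariants S] E := stronglyMeasurable_condExp.measurable
  have hES : E ∘ S = E := MeasurableSpace.comp_eq_of_measurable_invariants hEm
  have hET : ∀ᵐ ω ∂P, E (T ω) = E ω := by
    have h1 : ∀ᵐ ω ∂P, Tendsto (fun n : ℕ => (n : ℝ)⁻¹ * ∑ k ∈ Finset.range n, g (S^[k] (T ω)))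
        atTop (𝓝 (E (T ω))) := hT.quasiMeasurePreserving.ae hB
    filter_upwards [hB, h1] with ω h2 h3
    refine tendsto_nhds_unique h3 ?_
    refine h2.congr fun n => ?_
    congr 1
    refine Finset.sum_congr rfl fun k _ => ?_
    have := comm_iterate (S := S) (T := T) hST k 1 ω
    simp only [Function.iterate_one] at this
    rw [this, hgT]
  have hint : Integrable g P := by
    refine Integrable.mono' (integrable_const C) hg.aestronglyMeasurable ?_
    filter_upwards with x
    exact hC x
  obtain ⟨a, ha⟩ : ∃ a, E =ᵐ[P] Function.const Ω a := by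
    refine Filter.exists_eventuallyEq_const_of_forall_separating (β := ℝ) MeasurableSet
      fun U hU => ?_
    have h1 : MeasurableSet (E ⁻¹' U) := (hEm.mono hle le_rfl) hU
    have h2 : S ⁻¹' (E ⁻¹' U) = E ⁻¹' U := by
      rw [← Set.preimage_comp, hES]
    have h3 : T ⁻¹' (E ⁻¹' U) =ᵐ[P] E ⁻¹' U := by
      filter_upwards [hET] with ω h4
      refine propext ?_
      change E (T ω) ∈ U ↔ E ω ∈ U
      rw [h4]
    rcases zero_or_one hS hT hST herg _ h1 h2 h3 with h4 | h4
    · right
      exact measure_eq_zero_iff_ae_notMem.1 h4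
    · left
      exact (prob_compl_eq_zero_iff h1).2 h4
  have h4 : a = ∫ x, g x ∂P := by
    have h5 : ∫ x, E x ∂P = ∫ x, g x ∂P := integral_condExp hle
    rw [← h5, integral_congr_ae ha]
    simp
  filter_upwards [hB, ha] with ω h5 h6
  have h7 : P[g | MeasurableSpace.invariants S] ω = a := h6
  rw [h7, h4] at h5
  exact h5

/-- A dominated form of Maker's theorem. -/
theorem maker (hS : MeasurePreserving S P P) {R : ℕ → Ω → ℝ} {R' : Ω → ℝ}
    (hR : ∀ n, Measurable (R n)) (hR' : Measurable R') {C : ℝ} (hC : ∀ n x, |R n x| ≤ C)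
    (hC' : ∀ x, |R' x| ≤ C) (hlim : ∀ᵐ ω ∂P, Tendsto (fun n => R n ω) atTop (𝓝 (R' ω))) :
    ∀ᵐ ω ∂P, Tendsto (fun n => av S (fun x => |R n x - R' x|) n ω) atTop (𝓝 0) := by
  by_cases hne : Nonempty Ω
  swap
  · filter_upwards with x
    exact absurd ⟨x⟩ hne
  obtain ⟨x₀⟩ := hne
  have hC0 : 0 ≤ C := (abs_nonneg _).trans (hC' x₀)
  let G : ℕ → Ω → ℝ := fun K x => ⨆ n : ℕ, |R (K + n) x - R' x|
  have hGb' : ∀ K x n, |R (K + n) x - R' x| ≤ 2 * C := by
    intro K x n
    refine (abs_sub _ _).trans ?_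
    linarith [hC (K + n) x, hC' x]
  have hGbdd : ∀ K x, BddAbove (Set.range fun n : ℕ => |R (K + n) x - R' x|) := by
    intro K x
    refine ⟨2 * C, ?_⟩
    rintro _ ⟨n, rfl⟩
    exact hGb' K x n
  have hGm : ∀ K, Measurable (G K) := fun K => Measurable.iSup fun n =>
    ((hR _).sub hR').abs
  have hG0 : ∀ K x, 0 ≤ G K x := fun K x =>
    (abs_nonneg _).trans (le_ciSup (hGbdd K x) 0)
  have hGb : ∀ K x, |G K x| ≤ 2 * C := by
    intro K x
    rw [abs_of_nonneg (hG0 K x)]
    exact ciSup_le fun n => hGb' K x n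
  have hGle : ∀ K n x, K ≤ n → |R n x - R' x| ≤ G K x := by
    intro K n x hn
    obtain ⟨d, rfl⟩ := Nat.exists_eq_add_of_le hn
    exact le_ciSup (hGbdd K x) d
  have hGlim : ∀ᵐ x ∂P, Tendsto (fun K => G K x) atTop (𝓝 0) := by
    filter_upwards [hlim] with x hx
    rw [Metric.tendsto_atTop] at hx ⊢
    intro ε hε
    obtain ⟨K₀, hK₀⟩ := hx (ε / 2) (by positivity)
    refine ⟨K₀, fun K hK => ?_⟩
    rw [Real.dist_eq, sub_zero, abs_of_nonneg (hG0 K x)]
    have : G K x ≤ ε / 2 := by
      apply ciSup_le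
      intro n
      have := hK₀ (K + n) (by omega)
      rw [Real.dist_eq] at this
      exact this.le
    linarith
  have hGint : Tendsto (fun K => ∫ x, G K x ∂P) atTop (𝓝 0) := by
    have := tendsto_integral_of_dominated_convergence (fun _ => 2 * C)
      (fun K => (hGm K).aestronglyMeasurable) (integrable_const _)
      (fun K => Eventually.of_forall fun x => by
        rw [Real.norm_eq_abs]
        exact hGb K x) hGlim
    rwa [integral_zero] at this
  have hGi : ∀ K, Integrable (G K) P := fun K =>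
    Integrable.mono' (integrable_const (2 * C)) (hGm K).aestronglyMeasurable
      (Eventually.of_forall fun x => by
        rw [Real.norm_eq_abs]
        exact hGb K x)
  set E : ℕ → Ω → ℝ := fun K => P[G K | MeasurableSpace.invariants S] with hE
  have hE0 : ∀ K, 0 ≤ᵐ[P] E K := fun K =>
    condExp_nonneg (Eventually.of_forall fun x => hG0 K x)
  have hEint : ∀ K, ∫ x, E K x ∂P = ∫ x, G K x ∂P := fun K =>
    integral_condExp (MeasurableSpace.invariants_le S)
  have hB : ∀ᵐ ω ∂P, ∀ K, Tendsto (fun n => av S (G K) n ω) atTop (𝓝 (E K ω)) := by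
    rw [ae_all_iff]
    exact fun K => Pool.Agent.H165R3.BPE.birkhoff hS (G K) (hGm K) (2 * C) (hGb K)
  have hsmall : ∀ᵐ ω ∂P, ∀ m : ℕ, ∃ K, E K ω < 1 / ((m : ℝ) + 1) := by
    rw [ae_all_iff]
    intro m
    have hm : (0 : ℝ) < 1 / ((m : ℝ) + 1) := by positivity
    rw [ae_iff]
    push Not
    by_contra hcon
    have hpos : 0 < P.real {ω | ∀ K, 1 / ((m : ℝ) + 1) ≤ E K ω} := by
      rw [measureReal_def]
      exact ENNReal.toReal_pos hcon (measure_ne_top _ _)
    have h1 : ∀ K, 1 / ((m : ℝ) + 1) * P.real {ω | ∀ K, 1 / ((m : ℝ) + 1) ≤ E K ω} ≤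
        ∫ x, G K x ∂P := by
      intro K
      rw [← hEint K]
      refine le_trans ?_ (mul_meas_ge_le_integral_of_nonneg (hE0 K) integrable_condExp
        (1 / ((m : ℝ) + 1)))
      apply mul_le_mul_of_nonneg_left _ hm.le
      have hsub : {ω | ∀ K, 1 / ((m : ℝ) + 1) ≤ E K ω} ⊆ {ω | 1 / ((m : ℝ) + 1) ≤ E K ω} :=
        fun ω hω => hω K
      exact measureReal_mono hsub (measure_ne_top _ _)
    have h2 := ge_of_tendsto' hGint h1
    have h3 := mul_pos hm hpos
    linarith
  filter_upwards [hB, hsmall] with ω h1 h2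
  rw [Metric.tendsto_atTop]
  intro ε hε
  obtain ⟨m, hm⟩ := exists_nat_one_div_lt hε
  obtain ⟨K, hK⟩ := h2 m
  have h3 : ∀ᶠ n in atTop, av S (G K) n ω < ε :=
    (h1 K).eventually (gt_mem_nhds (hK.trans hm))
  obtain ⟨N, hN⟩ := eventually_atTop.1 (h3.and (eventually_ge_atTop K))
  refine ⟨N, fun n hn => ?_⟩
  obtain ⟨h4, h5⟩ := hN n hn
  have h6 : 0 ≤ av S (fun x => |R n x - R' x|) n ω := by
    unfold av
    exact mul_nonneg (by positivity) (Finset.sum_nonneg fun i _ => abs_nonneg _)
  rw [Real.dist_eq, sub_zero, abs_of_nonneg h6]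
  refine lt_of_le_of_lt ?_ h4
  unfold av
  exact mul_le_mul_of_nonneg_left (Finset.sum_le_sum fun i _ => hGle K n _ h5) (by positivity)

/-- The row averages of the matrix `F (S^i T^j ω)`, compared with the conditional expectation. -/
theorem rows (hS : MeasurePreserving S P P) (hT : MeasurePreserving T P P)
    (hST : ∀ ω, S (T ω) = T (S ω))
    (herg : ∀ s, MeasurableSet s → S ⁻¹' s = s → T ⁻¹' s = s → P s = 0 ∨ P s = 1)
    {F : Ω → ℝ} (hF : Measurable F) {C : ℝ} (hC : ∀ x, |F x| ≤ C) (a : ℝ) :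
    ∀ᵐ ω ∂P, Tendsto (fun n => av S (fun x => av T F n x) n ω) atTop (𝓝 (∫ x, F x ∂P)) ∧
      ∃ e : ℕ → ℝ, Tendsto e atTop
        (𝓝 (∫ x, |(P[F | MeasurableSpace.invariants T]) x - a| ∂P)) ∧
        ∀ n, av S (fun x => |av T F n x - a|) n ω ≤ e n := by
  by_cases hne : Nonempty Ω
  swap
  · filter_upwards with x
    exact absurd ⟨x⟩ hne
  obtain ⟨x₀⟩ := hne
  have hC0 : 0 ≤ C := (abs_nonneg _).trans (hC x₀)
  have hle := MeasurableSpace.invariants_le T
  set E := P[F | MeasurableSpace.invariants T] with hE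
  have hB := Pool.Agent.H165R3.BPE.birkhoff hT F hF C hC
  have hEm : Measurable[MeasurableSpace.invariants T] E := stronglyMeasurable_condExp.measurable
  let h : Ω → ℝ := fun x => max (-C) (min C (E x))
  have hhm' : Measurable[MeasurableSpace.invariants T] h :=
    Measurable.max measurable_const (Measurable.min measurable_const hEm)
  have hhm : Measurable h := hhm'.mono hle le_rfl
  have hhT : ∀ x, h (T x) = h x := fun x =>
    congrFun (MeasurableSpace.comp_eq_of_measurable_invariants hhm') x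
  have hhb : ∀ x, |h x| ≤ C := by
    intro x
    rw [abs_le]
    exact ⟨le_max_left _ _, max_le (by linarith) (min_le_left _ _)⟩
  have hhE : h =ᵐ[P] E := by
    filter_upwards [hB] with x hx
    have h1 : |E x| ≤ C := by
      have := hx.abs
      exact le_of_tendsto this (Eventually.of_forall fun n => abs_av_le T hC hC0 n x)
    rw [abs_le] at h1
    show max (-C) (min C (E x)) = E x
    rw [min_eq_right h1.2, max_eq_right h1.1]
  have hlim : ∀ᵐ ω ∂P, Tendsto (fun n => av T F n ω) atTop (𝓝 (h ω)) := by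
    filter_upwards [hB, hhE] with x hx hx'
    rw [hx']
    exact hx
  have hM := maker hS (R := fun n => av T F n) (fun n => measurable_av hT.measurable hF n) hhm
    (fun n x => abs_av_le T hC hC0 n x) hhb hlim
  have h1 := av_tendsto hS hT hST herg hhm hhb hhT
  have h2 : ∀ᵐ ω ∂P, Tendsto (fun n => av S (fun x => |h x - a|) n ω) atTop
      (𝓝 (∫ x, |h x - a| ∂P)) := by
    refine av_tendsto hS hT hST herg (C := C + |a|) (hhm.sub_const a).abs (fun x => ?_)
      (fun x => by rw [hhT])
    rw [abs_abs]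
    refine (abs_sub _ _).trans ?_
    linarith [hhb x]
  have hint : ∫ x, h x ∂P = ∫ x, F x ∂P := by
    rw [integral_congr_ae hhE]
    exact integral_condExp hle
  have hint2 : ∫ x, |h x - a| ∂P = ∫ x, |E x - a| ∂P := by
    refine integral_congr_ae ?_
    filter_upwards [hhE] with x hx
    rw [hx]
  filter_upwards [hM, h1, h2] with ω k1 k2 k3
  constructor
  · rw [← hint]
    have h3 : ∀ n, |av S (fun x => av T F n x) n ω - av S h n ω| ≤
        av S (fun x => |av T F n x - h x|) n ω := by
      intro n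
      unfold av
      rw [← mul_sub, ← Finset.sum_sub_distrib, abs_mul, abs_of_nonneg
        (by positivity : (0 : ℝ) ≤ (n : ℝ)⁻¹)]
      exact mul_le_mul_of_nonneg_left (Finset.abs_sum_le_sum_abs _ _) (by positivity)
    have h4 : Tendsto (fun n => av S (fun x => av T F n x) n ω - av S h n ω) atTop (𝓝 0) :=
      squeeze_zero_norm (fun n => by rw [Real.norm_eq_abs]; exact h3 n) k1
    have h5 := h4.add k2
    rw [zero_add] at h5
    refine h5.congr fun n => ?_
    ring
  · refine ⟨fun n => av S (fun x => |av T F n x - h x|) n ω + av S (fun x => |h x - a|) n ω,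
      ?_, ?_⟩
    · have := k1.add k3
      rw [zero_add, hint2] at this
      exact this
    · intro n
      show _ ≤ av S (fun x => |av T F n x - h x|) n ω + av S (fun x => |h x - a|) n ω
      unfold av
      rw [← mul_add, ← Finset.sum_add_distrib]
      refine mul_le_mul_of_nonneg_left (Finset.sum_le_sum fun i _ => ?_) (by positivity)
      exact abs_sub_le _ _ _

end Pool.Agent.K4H40.Erg
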