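import Pool.Agent.K4H40.LLPDefs

/-!
# Near minimizers of the scaling mean
-/

set_option autoImplicit false

namespace Pool.Agent.K4H40.LLP

open Filter Topology MeasureTheory Set ProbabilityTheory
open scoped ENNReal

variable {Ω : Type*} {m1 m2 : MeasurableSpace Ω} [m0 : MeasurableSpace Ω] {P : Measure Ω}
  [IsProbabilityMeasure P]

theorem gm_pos (φ : Ω → ℝ) : 0 < gm P φ := Real.exp_pos _

theorem jensen_exp {u : Ω → ℝ} (hu : ∀ ω, 0 < u ω) (hi : Integrable u P)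
    (hl : Integrable (fun ω => Real.log (u ω)) P) : gm P u ≤ ∫ ω, u ω ∂P := by
  set M := ∫ ω, u ω ∂P with hM
  have hM0 : 0 < M := by
    rw [hM, integral_pos_iff_support_of_nonneg (fun ω => (hu ω).le) hi]
    have : Function.support u = univ := by
      ext ω
      simp [(hu ω).ne']
    rw [this]
    simp
  have h1 : ∀ ω, Real.log (u ω) ≤ u ω / M - 1 + Real.log M := by
    intro ω
    have h2 := Real.log_le_sub_one_of_pos (div_pos (hu ω) hM0)
    rw [Real.log_div (hu ω).ne' hM0.ne'] at h2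
    linarith
  have h2 : ∫ ω, Real.log (u ω) ∂P ≤ ∫ ω, (u ω / M - 1 + Real.log M) ∂P :=
    integral_mono hl (((hi.div_const M).sub (integrable_const _)).add (integrable_const _)) h1
  have h3 : ∫ ω, (u ω / M - 1 + Real.log M) ∂P = Real.log M := by
    have e1 : Integrable (fun ω => u ω / M - 1) P := (hi.div_const M).sub (integrable_const _)
    rw [integral_add e1 (integrable_const _),
      integral_sub (hi.div_const M) (integrable_const _), integral_div, ← hM, div_self hM0.ne']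
    simp
  rw [h3] at h2
  unfold gm
  calc Real.exp (∫ ω, Real.log (u ω) ∂P) ≤ Real.exp (Real.log M) := Real.exp_le_exp.2 h2
    _ = M := Real.exp_log hM0

theorem pull (hm1 : m1 ≤ m0) {u w : Ω → ℝ} (hu : Measurable[m1] u)
    (hw : Integrable w P) (hcw : P[w | m1] =ᵐ[P] fun _ => 1)
    (huw : Integrable (fun ω => u ω * w ω) P) :
    Integrable u P ∧ ∫ ω, u ω * w ω ∂P = ∫ ω, u ω ∂P := by
  have h1 : P[u * w | m1] =ᵐ[P] u * P[w | m1] :=
    condExp_mul_of_stronglyMeasurable_left hu.stronglyMeasurable huw hw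
  have h2 : P[u * w | m1] =ᵐ[P] u := by
    filter_upwards [h1, hcw] with ω h3 h4
    rw [h3, Pi.mul_apply, h4, mul_one]
  refine ⟨(integrable_condExp (μ := P) (m := m1) (f := u * w)).congr h2, ?_⟩
  rw [← integral_congr_ae h2, integral_condExp hm1]
  rfl

/-- the basic comparison -/
theorem gm_le (hm1 : m1 ≤ m0) {u w : Ω → ℝ} (hu : Measurable[m1] u)
    (hu0 : ∀ ω, 0 < u ω) (hl : Integrable (fun ω => Real.log (u ω)) P)
    (hw : Integrable w P) (hcw : P[w | m1] =ᵐ[P] fun _ => 1)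
    (huw : Integrable (fun ω => u ω * w ω) P) : gm P u ≤ ∫ ω, u ω * w ω ∂P := by
  obtain ⟨h1, h2⟩ := pull hm1 hu hw hcw huw
  rw [h2]
  exact jensen_exp hu0 h1 hl

/-- one Sinkhorn step -/
theorem step (hm1 : m1 ≤ m0) {f k : Ω → ℝ} {c C : ℝ} (hc : 0 < c)
    (hf : Measurable f) (hfc : ∀ ω, c ≤ f ω) (hfC : ∀ ω, f ω ≤ C) (hk : Integrable k P)
    (hk0 : ∀ ω, 0 < k ω) (hkm : P[k | m1] =ᵐ[P] fun _ => ∫ ω, k ω ∂P) :
    0 < ∫ ω, k ω ∂P ∧ ∃ g : Ω → ℝ, Measurable[m1] g ∧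
      (∀ ω, (C * ∫ ω, k ω ∂P)⁻¹ ≤ g ω) ∧ (∀ ω, g ω ≤ (c * ∫ ω, k ω ∂P)⁻¹) ∧
      P[fun ω => g ω * f ω * k ω | m1] =ᵐ[P] fun _ => 1 := by
  set I := ∫ ω, k ω ∂P with hI
  have hI0 : 0 < I := by
    rw [hI, integral_pos_iff_support_of_nonneg (fun ω => (hk0 ω).le) hk]
    have : Function.support k = univ := by
      ext ω
      simp [(hk0 ω).ne']
    rw [this]
    simp
  have hne : Nonempty Ω := nonempty_of_isProbabilityMeasure P
  have hcC : c ≤ C := (hfc hne.some).trans (hfC hne.some)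
  have hC : 0 < C := hc.trans_le hcC
  refine ⟨hI0, ?_⟩
  have hfk : Integrable (fun ω => f ω * k ω) P := by
    refine hk.bdd_mul (c := C) hf.aestronglyMeasurable (Eventually.of_forall fun ω => ?_)
    rw [Real.norm_eq_abs, abs_of_pos (hc.trans_le (hfc ω))]
    exact hfC ω
  set D := P[fun ω => f ω * k ω | m1] with hD
  have hD1 : ∀ᵐ ω ∂P, c * I ≤ D ω := by
    have h1 : P[fun ω => c * k ω | m1] ≤ᵐ[P] D :=
      condExp_mono (hk.const_mul c) hfk (Eventually.of_forall fun ω =>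
        mul_le_mul_of_nonneg_right (hfc ω) (hk0 ω).le)
    have h2 : P[fun ω => c * k ω | m1] =ᵐ[P] c • P[k | m1] := condExp_smul c k m1
    filter_upwards [h1, h2, hkm] with ω h3 h4 h5
    rw [h4, Pi.smul_apply, h5, smul_eq_mul] at h3
    exact h3
  have hD2 : ∀ᵐ ω ∂P, D ω ≤ C * I := by
    have h1 : D ≤ᵐ[P] P[fun ω => C * k ω | m1] :=
      condExp_mono hfk (hk.const_mul C) (Eventually.of_forall fun ω =>
        mul_le_mul_of_nonneg_right (hfC ω) (hk0 ω).le)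
    have h2 : P[fun ω => C * k ω | m1] =ᵐ[P] C • P[k | m1] := condExp_smul C k m1
    filter_upwards [h1, h2, hkm] with ω h3 h4 h5
    rw [h4, Pi.smul_apply, h5, smul_eq_mul] at h3
    exact h3
  have hDm : Measurable[m1] D := stronglyMeasurable_condExp.measurable
  let D' : Ω → ℝ := fun ω => max (c * I) (min (C * I) (D ω))
  have hD'm : Measurable[m1] D' :=
    Measurable.max measurable_const (Measurable.min measurable_const hDm)
  have hD'1 : ∀ ω, c * I ≤ D' ω := fun ω => le_max_left _ _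
  have hD'2 : ∀ ω, D' ω ≤ C * I := fun ω =>
    max_le (mul_le_mul_of_nonneg_right hcC hI0.le) (min_le_left _ _)
  have hD'0 : ∀ ω, 0 < D' ω := fun ω => lt_of_lt_of_le (mul_pos hc hI0) (hD'1 ω)
  have hD'D : D' =ᵐ[P] D := by
    filter_upwards [hD1, hD2] with ω h1 h2
    show max (c * I) (min (C * I) (D ω)) = D ω
    rw [min_eq_right h2, max_eq_right h1]
  refine ⟨fun ω => (D' ω)⁻¹, hD'm.inv, fun ω => ?_, fun ω => ?_, ?_⟩
  · exact inv_anti₀ (hD'0 ω) (hD'2 ω)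
  · exact inv_anti₀ (mul_pos hc hI0) (hD'1 ω)
  · have h1 : P[(fun ω => (D' ω)⁻¹) * (fun ω => f ω * k ω) | m1] =ᵐ[P]
        (fun ω => (D' ω)⁻¹) * P[fun ω => f ω * k ω | m1] := by
      refine condExp_stronglyMeasurable_mul_of_bound hm1 hD'm.inv.stronglyMeasurable hfk
        ((c * I)⁻¹) (Eventually.of_forall fun ω => ?_)
      rw [Real.norm_eq_abs, abs_of_pos (inv_pos.2 (hD'0 ω))]
      exact inv_anti₀ (mul_pos hc hI0) (hD'1 ω)
    have h2 : (fun ω => (D' ω)⁻¹ * f ω * k ω) = (fun ω => (D' ω)⁻¹) * (fun ω => f ω * k ω) := by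
      funext ω
      rw [Pi.mul_apply, mul_assoc]
    rw [h2]
    filter_upwards [h1, hD'D] with ω h3 h4
    rw [h3, Pi.mul_apply, ← hD, ← h4, inv_mul_cancel₀ (hD'0 ω).ne']

theorem integrable_of_bdd {g : Ω → ℝ} (hg : Measurable g) {a b : ℝ} (h1 : ∀ ω, a ≤ g ω)
    (h2 : ∀ ω, g ω ≤ b) : Integrable g P := by
  refine Integrable.mono' (integrable_const (max |a| |b|)) hg.aestronglyMeasurable
    (Eventually.of_forall fun ω => ?_)
  rw [Real.norm_eq_abs, abs_le]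
  constructor
  · have := neg_abs_le a
    have := le_max_left |a| |b|
    linarith [h1 ω]
  · have := le_abs_self b
    have := le_max_right |a| |b|
    linarith [h2 ω]

theorem integrable_log_of_bdd {g : Ω → ℝ} (hg : Measurable g) {a b : ℝ} (ha : 0 < a)
    (h1 : ∀ ω, a ≤ g ω) (h2 : ∀ ω, g ω ≤ b) : Integrable (fun ω => Real.log (g ω)) P :=
  integrable_of_bdd (Real.measurable_log.comp hg) (a := Real.log a) (b := Real.log b)
    (fun ω => Real.log_le_log ha (h1 ω))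
    (fun ω => Real.log_le_log (ha.trans_le (h1 ω)) (h2 ω))

theorem gm_div {u v : Ω → ℝ} (hu : ∀ ω, 0 < u ω) (hv : ∀ ω, 0 < v ω)
    (hlu : Integrable (fun ω => Real.log (u ω)) P) (hlv : Integrable (fun ω => Real.log (v ω)) P) :
    gm P (fun ω => u ω / v ω) = gm P u / gm P v := by
  unfold gm
  rw [← Real.exp_sub, ← integral_sub hlu hlv]
  congr 1
  exact integral_congr_ae (Eventually.of_forall fun ω => Real.log_div (hu ω).ne' (hv ω).ne')

/-- an elementary inequality -/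
theorem abs_sub_one_le {x M θ : ℝ} (hx : 0 < x) (hM : x ≤ M) (hθ : 0 < θ) :
    |x - 1| ≤ θ + (Real.sqrt M + 1) ^ 2 / (4 * θ) * (x - 1 - Real.log x) := by
  have hs := Real.sqrt_pos.2 hx
  have hsq : Real.sqrt x * Real.sqrt x = x := Real.mul_self_sqrt hx.le
  have h1 : (Real.sqrt x - 1) ^ 2 ≤ x - 1 - Real.log x := by
    have h2 := Real.log_le_sub_one_of_pos hs
    rw [Real.log_sqrt hx.le] at h2
    nlinarith
  have h2 : Real.sqrt x ≤ Real.sqrt M := Real.sqrt_le_sqrt hM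
  have h3 : |x - 1| ≤ |Real.sqrt x - 1| * (Real.sqrt M + 1) := by
    have h4 : x - 1 = (Real.sqrt x - 1) * (Real.sqrt x + 1) := by
      nlinarith
    rw [h4, abs_mul, abs_of_pos (by linarith : 0 < Real.sqrt x + 1)]
    exact mul_le_mul_of_nonneg_left (by linarith) (abs_nonneg _)
  set y := |Real.sqrt x - 1| with hy
  have hy2 : y ^ 2 = (Real.sqrt x - 1) ^ 2 := sq_abs _
  set L := Real.sqrt M + 1 with hL
  have h5 : y * L ≤ θ + L ^ 2 / (4 * θ) * y ^ 2 := by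
    have h6 : 0 ≤ (2 * θ - L * y) ^ 2 := sq_nonneg _
    have h7 : θ + L ^ 2 / (4 * θ) * y ^ 2 - y * L = (2 * θ - L * y) ^ 2 / (4 * θ) := by
      field_simp
      ring
    have h8 : 0 ≤ (2 * θ - L * y) ^ 2 / (4 * θ) := by positivity
    linarith
  have h6 : L ^ 2 / (4 * θ) * y ^ 2 ≤ L ^ 2 / (4 * θ) * (x - 1 - Real.log x) := by
    rw [hy2]
    exact mul_le_mul_of_nonneg_left h1 (by positivity)
  linarith

/-- **Near minimizers.** -/
theorem near (hm1 : m1 ≤ m0) (hm2 : m2 ≤ m0) (hind : Indep m1 m2 P)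
    {f : Ω → ℝ} {c C : ℝ} (hc : 0 < c) (hf : Measurable f) (hfc : ∀ ω, c ≤ f ω)
    (hfC : ∀ ω, f ω ≤ C) :
    smean m1 m2 P f ≠ ⊤ ∧ c ≤ (smean m1 m2 P f).toReal ∧
    ∀ θ : ℝ, 0 < θ → ∃ (g₁ g₂ : Ω → ℝ) (a₁ a₂ : ℝ), Measurable[m1] g₁ ∧ Measurable[m2] g₂ ∧
      0 < a₁ ∧ 0 < a₂ ∧ (∀ ω, a₁ ≤ g₁ ω) ∧ (∀ ω, g₁ ω ≤ a₁ * (C / c)) ∧ (∀ ω, a₂ ≤ g₂ ω) ∧
      (∀ ω, g₂ ω ≤ a₂ * (C / c)) ∧ (P[fun ω => g₁ ω * f ω * g₂ ω | m2] =ᵐ[P] fun _ => 1) ∧
      (smean m1 m2 P f).toReal ≤ (gm P g₁ * gm P g₂)⁻¹ ∧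
      (gm P g₁ * gm P g₂)⁻¹ ≤ (smean m1 m2 P f).toReal + θ ∧
      ∫ ω, |(P[fun ω => g₁ ω * f ω * g₂ ω | m1]) ω - 1| ∂P ≤ θ := by
  classical
  have hne : Nonempty Ω := nonempty_of_isProbabilityMeasure P
  have hcC : c ≤ C := (hfc hne.some).trans (hfC hne.some)
  have hC : 0 < C := hc.trans_le hcC
  have hf0 : ∀ ω, 0 < f ω := fun ω => hc.trans_le (hfc ω)
  -- the objective
  let J : (Ω → ℝ) → (Ω → ℝ) → ℝ≥0∞ := fun g₁ g₂ =>
    (∫⁻ ω, ENNReal.ofReal (g₁ ω * f ω * g₂ ω) ∂P) / ENNReal.ofReal (gm P g₁ * gm P g₂)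
  have hJle : ∀ g₁ ∈ GSet m1 P, ∀ g₂ ∈ GSet m2 P, smean m1 m2 P f ≤ J g₁ g₂ := by
    intro g₁ h₁ g₂ h₂
    exact (iInf₂_le g₁ h₁).trans (iInf₂_le g₂ h₂)
  have hJreal : ∀ g₁ g₂ : Ω → ℝ, (∀ ω, 0 < g₁ ω) → (∀ ω, 0 < g₂ ω) →
      Integrable (fun ω => g₁ ω * f ω * g₂ ω) P →
      J g₁ g₂ = ENNReal.ofReal ((∫ ω, g₁ ω * f ω * g₂ ω ∂P) / (gm P g₁ * gm P g₂)) := by
    intro g₁ g₂ h1 h2 h3
    show (∫⁻ ω, ENNReal.ofReal (g₁ ω * f ω * g₂ ω) ∂P) / ENNReal.ofReal (gm P g₁ * gm P g₂) = _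
    rw [← ofReal_integral_eq_lintegral_ofReal h3 (Eventually.of_forall fun ω =>
      (mul_pos (mul_pos (h1 ω) (hf0 ω)) (h2 ω)).le),
      ENNReal.ofReal_div_of_pos (mul_pos (gm_pos _) (gm_pos _))]
  have hone1 : (fun _ : Ω => (1 : ℝ)) ∈ GSet m1 P := by
    refine ⟨measurable_const, fun _ => one_pos, ?_⟩
    simp
  have hone2 : (fun _ : Ω => (1 : ℝ)) ∈ GSet m2 P := by
    refine ⟨measurable_const, fun _ => one_pos, ?_⟩
    simp
  have htop : smean m1 m2 P f ≠ ⊤ := by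
    have h1 := hJle _ hone1 _ hone2
    rw [hJreal _ _ (fun _ => one_pos) (fun _ => one_pos) (by
      simpa using (integrable_of_bdd (P := P) hf hfc hfC))] at h1
    exact ne_top_of_le_ne_top ENNReal.ofReal_ne_top h1
  set s := (smean m1 m2 P f).toReal with hs
  have hs0 : 0 ≤ s := ENNReal.toReal_nonneg
  have hsle : ∀ g₁ ∈ GSet m1 P, ∀ g₂ ∈ GSet m2 P, Integrable (fun ω => g₁ ω * f ω * g₂ ω) P →
      s ≤ (∫ ω, g₁ ω * f ω * g₂ ω ∂P) / (gm P g₁ * gm P g₂) := by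
    intro g₁ h₁ g₂ h₂ h3
    have h4 := hJle g₁ h₁ g₂ h₂
    rw [hJreal g₁ g₂ h₁.2.1 h₂.2.1 h3] at h4
    have h5 : 0 ≤ (∫ ω, g₁ ω * f ω * g₂ ω ∂P) / (gm P g₁ * gm P g₂) :=
      div_nonneg (integral_nonneg fun ω =>
        (mul_pos (mul_pos (h₁.2.1 ω) (hf0 ω)) (h₂.2.1 ω)).le)
        (mul_pos (gm_pos _) (gm_pos _)).le
    rw [hs]
    calc (smean m1 m2 P f).toReal ≤ (ENNReal.ofReal _).toReal :=
          ENNReal.toReal_mono ENNReal.ofReal_ne_top h4
      _ = _ := ENNReal.toReal_ofReal h5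
  -- conditional expectations of independent functions
  have hcond1 : ∀ k : Ω → ℝ, Measurable[m2] k → P[k | m1] =ᵐ[P] fun _ => ∫ ω, k ω ∂P := by
    intro k hk
    exact condExp_indep_eq hm2 hm1 hk.stronglyMeasurable hind.symm
  have hcond2 : ∀ k : Ω → ℝ, Measurable[m1] k → P[k | m2] =ᵐ[P] fun _ => ∫ ω, k ω ∂P := by
    intro k hk
    exact condExp_indep_eq hm1 hm2 hk.stronglyMeasurable hind
  -- the two steps
  have main : ∀ δ : ℝ, 0 < δ → ∃ (g₁ g₂ : Ω → ℝ) (a₁ a₂ : ℝ), Measurable[m1] g₁ ∧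
      Measurable[m2] g₂ ∧ 0 < a₁ ∧ 0 < a₂ ∧ (∀ ω, a₁ ≤ g₁ ω) ∧ (∀ ω, g₁ ω ≤ a₁ * (C / c)) ∧
      (∀ ω, a₂ ≤ g₂ ω) ∧ (∀ ω, g₂ ω ≤ a₂ * (C / c)) ∧
      (P[fun ω => g₁ ω * f ω * g₂ ω | m2] =ᵐ[P] fun _ => 1) ∧
      s ≤ (gm P g₁ * gm P g₂)⁻¹ ∧ (gm P g₁ * gm P g₂)⁻¹ ≤ s + δ ∧
      ∃ v : Ω → ℝ, Measurable[m1] v ∧ (∀ ω, 0 < v ω) ∧ (∀ ω, v ω ≤ (C / c) ^ 2) ∧
        (P[fun ω => g₁ ω * f ω * g₂ ω | m1] =ᵐ[P] v) ∧ ∫ ω, v ω ∂P = 1 ∧
        Integrable (fun ω => Real.log (v ω)) P ∧ s / (s + δ) ≤ gm P v := by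
    intro δ hδ
    have hlt : smean m1 m2 P f < ENNReal.ofReal (s + δ) := by
      rw [← ENNReal.ofReal_toReal htop]
      exact (ENNReal.ofReal_lt_ofReal_iff (by linarith)).2 (by rw [← hs]; linarith)
    obtain ⟨k₁, hk₁, k₂, hk₂, hJ⟩ : ∃ k₁ ∈ GSet m1 P, ∃ k₂ ∈ GSet m2 P,
        J k₁ k₂ < ENNReal.ofReal (s + δ) := by
      have h1 := hlt
      unfold smean at h1
      simp only [iInf_lt_iff] at h1
      obtain ⟨k₁, h₁, k₂, h₂, h3⟩ := h1
      exact ⟨k₁, h₁, k₂, h₂, h3⟩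
    obtain ⟨hk₁m, hk₁0, hk₁l⟩ := hk₁
    obtain ⟨hk₂m, hk₂0, hk₂l⟩ := hk₂
    have hk₁m' : Measurable k₁ := hk₁m.mono hm1 le_rfl
    have hk₂m' : Measurable k₂ := hk₂m.mono hm2 le_rfl
    -- integrability
    have hfin : ∫⁻ ω, ENNReal.ofReal (k₁ ω * f ω * k₂ ω) ∂P ≠ ⊤ := by
      intro hcon
      have h1 : J k₁ k₂ = ⊤ := by
        show (∫⁻ ω, ENNReal.ofReal (k₁ ω * f ω * k₂ ω) ∂P) / ENNReal.ofReal (gm P k₁ * gm P k₂) = ⊤
        rw [hcon]
        exact ENNReal.top_div_of_ne_top ENNReal.ofReal_ne_top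
      rw [h1] at hJ
      exact absurd hJ (not_lt.2 le_top)
    have hint : Integrable (fun ω => k₁ ω * f ω * k₂ ω) P := by
      refine ⟨((hk₁m'.mul hf).mul hk₂m').aestronglyMeasurable, ?_⟩
      rw [hasFiniteIntegral_iff_ofReal (Eventually.of_forall fun ω =>
        (mul_pos (mul_pos (hk₁0 ω) (hf0 ω)) (hk₂0 ω)).le)]
      exact lt_of_le_of_ne le_top hfin
    have hprod : (∫⁻ ω, ENNReal.ofReal (k₁ ω) ∂P) * (∫⁻ ω, ENNReal.ofReal (k₂ ω) ∂P) ≠ ⊤ := by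
      rw [← lintegral_mul_eq_lintegral_mul_lintegral_of_independent_measurableSpace hm1 hm2 hind
        hk₁m.ennreal_ofReal hk₂m.ennreal_ofReal]
      have h1 : ∫⁻ ω, ENNReal.ofReal (k₁ ω) * ENNReal.ofReal (k₂ ω) ∂P ≤
          ENNReal.ofReal c⁻¹ * ∫⁻ ω, ENNReal.ofReal (k₁ ω * f ω * k₂ ω) ∂P := by
        rw [← lintegral_const_mul' _ _ ENNReal.ofReal_ne_top]
        refine lintegral_mono fun ω => ?_
        rw [← ENNReal.ofReal_mul (hk₁0 ω).le, ← ENNReal.ofReal_mul (inv_pos.2 hc).le]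
        apply ENNReal.ofReal_le_ofReal
        have h2 : 1 ≤ c⁻¹ * f ω := by
          rw [← div_eq_inv_mul, le_div_iff₀ hc, one_mul]
          exact hfc ω
        calc k₁ ω * k₂ ω = 1 * (k₁ ω * k₂ ω) := (one_mul _).symm
          _ ≤ (c⁻¹ * f ω) * (k₁ ω * k₂ ω) :=
              mul_le_mul_of_nonneg_right h2 (mul_pos (hk₁0 ω) (hk₂0 ω)).le
          _ = _ := by ring
      exact ne_top_of_le_ne_top (ENNReal.mul_ne_top ENNReal.ofReal_ne_top hfin) h1
    have hk₁ne : ∫⁻ ω, ENNReal.ofReal (k₁ ω) ∂P ≠ 0 := by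
      intro h
      rw [lintegral_eq_zero_iff hk₁m'.ennreal_ofReal] at h
      obtain ⟨ω, hω⟩ := h.exists
      simp only [Pi.zero_apply, ENNReal.ofReal_eq_zero] at hω
      exact absurd hω (not_le.2 (hk₁0 ω))
    have hk₂i : Integrable k₂ P := by
      refine ⟨hk₂m'.aestronglyMeasurable, ?_⟩
      rw [hasFiniteIntegral_iff_ofReal (Eventually.of_forall fun ω => (hk₂0 ω).le)]
      refine lt_of_le_of_ne le_top fun h => hprod ?_
      rw [h]
      exact ENNReal.mul_top hk₁ne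
    -- the first step
    obtain ⟨hI₂, g₁, hg₁m, hg₁a, hg₁b, hg₁c⟩ := step hm1 hc hf hfc hfC hk₂i hk₂0 (hcond1 k₂ hk₂m)
    set I₂ := ∫ ω, k₂ ω ∂P with hI₂'
    have ha₁ : 0 < (C * I₂)⁻¹ := by positivity
    have hg₁0 : ∀ ω, 0 < g₁ ω := fun ω => ha₁.trans_le (hg₁a ω)
    have hg₁m' : Measurable g₁ := hg₁m.mono hm1 le_rfl
    have hg₁i : Integrable g₁ P := integrable_of_bdd hg₁m' hg₁a hg₁b
    have hg₁l : Integrable (fun ω => Real.log (g₁ ω)) P :=
      integrable_log_of_bdd hg₁m' ha₁ hg₁a hg₁b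
    -- the second step
    obtain ⟨hI₁, g₂, hg₂m, hg₂a, hg₂b, hg₂c⟩ := step hm2 hc hf hfc hfC hg₁i hg₁0 (hcond2 g₁ hg₁m)
    set I₁ := ∫ ω, g₁ ω ∂P with hI₁'
    have ha₂ : 0 < (C * I₁)⁻¹ := by positivity
    have hg₂0 : ∀ ω, 0 < g₂ ω := fun ω => ha₂.trans_le (hg₂a ω)
    have hg₂m' : Measurable g₂ := hg₂m.mono hm2 le_rfl
    have hg₂i : Integrable g₂ P := integrable_of_bdd hg₂m' hg₂a hg₂b
    have hg₂l : Integrable (fun ω => Real.log (g₂ ω)) P :=
      integrable_log_of_bdd hg₂m' ha₂ hg₂a hg₂b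
    have hcomm : (fun ω => g₂ ω * f ω * g₁ ω) = fun ω => g₁ ω * f ω * g₂ ω := by
      funext ω
      ring
    rw [hcomm] at hg₂c
    -- the third step
    obtain ⟨-, g₃, hg₃m, hg₃a, hg₃b, hg₃c⟩ := step hm1 hc hf hfc hfC hg₂i hg₂0 (hcond1 g₂ hg₂m)
    set I₃ := ∫ ω, g₂ ω ∂P with hI₃'
    have hI₃ : 0 < I₃ := by
      rw [hI₃', integral_pos_iff_support_of_nonneg (fun ω => (hg₂0 ω).le) hg₂i]
      have : Function.support g₂ = univ := by
        ext ω
        simp [(hg₂0 ω).ne']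
      rw [this]
      simp
    have ha₃ : 0 < (C * I₃)⁻¹ := by positivity
    have hg₃0 : ∀ ω, 0 < g₃ ω := fun ω => ha₃.trans_le (hg₃a ω)
    have hg₃m' : Measurable g₃ := hg₃m.mono hm1 le_rfl
    have hg₃l : Integrable (fun ω => Real.log (g₃ ω)) P :=
      integrable_log_of_bdd hg₃m' ha₃ hg₃a hg₃b
    have bddint : ∀ u w : Ω → ℝ, Measurable u → Measurable w → ∀ a b a' b' : ℝ,
        0 < a → 0 < a' → (∀ ω, a ≤ u ω) → (∀ ω, u ω ≤ b) → (∀ ω, a' ≤ w ω) → (∀ ω, w ω ≤ b') →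
        Integrable (fun ω => u ω * f ω * w ω) P := by
      intro u w hu hw a b a' b' ha ha' h1 h2 h3 h4
      refine integrable_of_bdd ((hu.mul hf).mul hw) (a := 0) (b := b * C * b') (fun ω => ?_)
        (fun ω => ?_)
      · have := h1 ω
        have := h3 ω
        have := hf0 ω
        have h5 : 0 < u ω := by linarith
        have h6 : 0 < w ω := by linarith
        positivity
      · have h5 : 0 < u ω := ha.trans_le (h1 ω)
        have h6 : 0 < w ω := ha'.trans_le (h3 ω)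
        exact mul_le_mul (mul_le_mul (h2 ω) (hfC ω) (hf0 ω).le (h5.le.trans (h2 ω))) (h4 ω) h6.le
          (mul_nonneg (h5.le.trans (h2 ω)) hC.le)
    have hint12 : Integrable (fun ω => g₁ ω * f ω * g₂ ω) P :=
      bddint g₁ g₂ hg₁m' hg₂m' _ _ _ _ ha₁ ha₂ hg₁a hg₁b hg₂a hg₂b
    have hint32 : Integrable (fun ω => g₃ ω * f ω * g₂ ω) P :=
      bddint g₃ g₂ hg₃m' hg₂m' _ _ _ _ ha₃ ha₂ hg₃a hg₃b hg₂a hg₂b
    have hint1k : Integrable (fun ω => g₁ ω * f ω * k₂ ω) P := by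
      have h1 : Integrable (fun ω => (g₁ ω * f ω) * k₂ ω) P := by
        refine hk₂i.bdd_mul (c := (c * I₂)⁻¹ * C) (hg₁m'.mul hf).aestronglyMeasurable
          (Eventually.of_forall fun ω => ?_)
        rw [Real.norm_eq_abs, abs_of_pos (mul_pos (hg₁0 ω) (hf0 ω))]
        exact mul_le_mul (hg₁b ω) (hfC ω) (hf0 ω).le (by positivity)
      exact h1
    have hi12 : ∫ ω, g₁ ω * f ω * g₂ ω ∂P = 1 := by
      rw [← integral_condExp hm2, integral_congr_ae hg₂c]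
      simp
    have hi32 : ∫ ω, g₃ ω * f ω * g₂ ω ∂P = 1 := by
      rw [← integral_condExp hm1, integral_congr_ae hg₃c]
      simp
    have hi1k : ∫ ω, g₁ ω * f ω * k₂ ω ∂P = 1 := by
      rw [← integral_condExp hm1, integral_congr_ae hg₁c]
      simp
    -- comparisons
    have hcmp1 : gm P k₁ / gm P g₁ ≤ ∫ ω, k₁ ω * f ω * k₂ ω ∂P := by
      have h1 : (fun ω => k₁ ω / g₁ ω * (g₁ ω * f ω * k₂ ω)) = fun ω => k₁ ω * f ω * k₂ ω := by
        funext ω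
        have := (hg₁0 ω).ne'
        field_simp
      have h2 := gm_le (P := P) hm1 (u := fun ω => k₁ ω / g₁ ω)
        (w := fun ω => g₁ ω * f ω * k₂ ω) (hk₁m.div hg₁m) (fun ω => div_pos (hk₁0 ω) (hg₁0 ω))
        (by
          have h3 := hk₁l.sub hg₁l
          refine h3.congr (Eventually.of_forall fun ω => ?_)
          simp only [Pi.sub_apply]
          exact (Real.log_div (hk₁0 ω).ne' (hg₁0 ω).ne').symm)
        hint1k hg₁c (by rw [h1]; exact hint)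
      rw [h1, gm_div hk₁0 hg₁0 hk₁l hg₁l] at h2
      exact h2
    have hcmp2 : gm P k₂ / gm P g₂ ≤ 1 := by
      have h1 : (fun ω => k₂ ω / g₂ ω * (g₁ ω * f ω * g₂ ω)) = fun ω => g₁ ω * f ω * k₂ ω := by
        funext ω
        have := (hg₂0 ω).ne'
        field_simp
      have h2 := gm_le (P := P) hm2 (u := fun ω => k₂ ω / g₂ ω)
        (w := fun ω => g₁ ω * f ω * g₂ ω) (hk₂m.div hg₂m) (fun ω => div_pos (hk₂0 ω) (hg₂0 ω))
        (by
          have h3 := hk₂l.sub hg₂l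
          refine h3.congr (Eventually.of_forall fun ω => ?_)
          simp only [Pi.sub_apply]
          exact (Real.log_div (hk₂0 ω).ne' (hg₂0 ω).ne').symm)
        hint12 hg₂c (by rw [h1]; exact hint1k)
      rw [h1, gm_div hk₂0 hg₂0 hk₂l hg₂l, hi1k] at h2
      exact h2
    have hJ' : (∫ ω, k₁ ω * f ω * k₂ ω ∂P) / (gm P k₁ * gm P k₂) < s + δ := by
      rw [hJreal k₁ k₂ hk₁0 hk₂0 hint] at hJ
      exact (ENNReal.ofReal_lt_ofReal_iff (by linarith)).1 hJ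
    have p1 := gm_pos (P := P) k₁
    have p2 := gm_pos (P := P) k₂
    have p3 := gm_pos (P := P) g₁
    have p4 := gm_pos (P := P) g₂
    have hup : (gm P g₁ * gm P g₂)⁻¹ ≤ s + δ := by
      refine le_trans ?_ hJ'.le
      rw [le_div_iff₀ (mul_pos p1 p2)]
      refine le_trans ?_ hcmp1
      rw [div_le_one p4] at hcmp2
      rw [inv_mul_le_iff₀ (mul_pos p3 p4)]
      calc gm P k₁ * gm P k₂ ≤ gm P k₁ * gm P g₂ := mul_le_mul_of_nonneg_left hcmp2 p1.le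
        _ = gm P g₁ * gm P g₂ * (gm P k₁ / gm P g₁) := by
            field_simp
    have hlo : s ≤ (gm P g₁ * gm P g₂)⁻¹ := by
      have h1 := hsle g₁ ⟨hg₁m, hg₁0, hg₁l⟩ g₂ ⟨hg₂m, hg₂0, hg₂l⟩ hint12
      rw [hi12, one_div] at h1
      exact h1
    have hlo3 : s ≤ (gm P g₃ * gm P g₂)⁻¹ := by
      have h1 := hsle g₃ ⟨hg₃m, hg₃0, hg₃l⟩ g₂ ⟨hg₂m, hg₂0, hg₂l⟩ hint32
      rw [hi32, one_div] at h1
      exact h1
    -- the function `v`
    have hvc : P[fun ω => g₁ ω * f ω * g₂ ω | m1] =ᵐ[P] fun ω => g₁ ω / g₃ ω := by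
      have h1 : (fun ω => g₁ ω * f ω * g₂ ω) =
          (fun ω => g₁ ω / g₃ ω) * fun ω => g₃ ω * f ω * g₂ ω := by
        funext ω
        rw [Pi.mul_apply]
        have := (hg₃0 ω).ne'
        field_simp
      have h2 : Integrable ((fun ω => g₁ ω / g₃ ω) * fun ω => g₃ ω * f ω * g₂ ω) P := by
        rw [← h1]
        exact hint12
      have h3 := condExp_mul_of_stronglyMeasurable_left (m := m1) (μ := P)
        (f := fun ω => g₁ ω / g₃ ω) (hg₁m.div hg₃m).stronglyMeasurable h2 hint32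
      rw [h1]
      filter_upwards [h3, hg₃c] with ω h4 h5
      rw [h4, Pi.mul_apply, h5, mul_one]
    have hv1 : ∫ ω, g₁ ω / g₃ ω ∂P = 1 := by
      rw [← integral_congr_ae hvc, integral_condExp hm1, hi12]
    have hvup : ∀ ω, g₁ ω / g₃ ω ≤ (C / c) ^ 2 := by
      -- the ratio of the bounds
      have hlow : ∀ ω, (C * I₂)⁻¹ * (c * I₃) ≤ g₁ ω / g₃ ω := by
        intro ω
        rw [le_div_iff₀ (hg₃0 ω)]
        have h1 : (c * I₃) * g₃ ω ≤ 1 := by
          have := mul_le_mul_of_nonneg_left (hg₃b ω) (mul_pos hc hI₃).le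
          rwa [mul_inv_cancel₀ (mul_pos hc hI₃).ne'] at this
        calc (C * I₂)⁻¹ * (c * I₃) * g₃ ω = (C * I₂)⁻¹ * ((c * I₃) * g₃ ω) := by ring
          _ ≤ (C * I₂)⁻¹ * 1 := mul_le_mul_of_nonneg_left h1 ha₁.le
          _ ≤ g₁ ω := by rw [mul_one]; exact hg₁a ω
      have h2 : (C * I₂)⁻¹ * (c * I₃) ≤ 1 := by
        rw [← hv1]
        have h3 : ∫ _ω : Ω, (C * I₂)⁻¹ * (c * I₃) ∂P = (C * I₂)⁻¹ * (c * I₃) := by simp
        rw [← h3]
        refine integral_mono (integrable_const _) ?_ hlow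
        exact (integrable_condExp (μ := P) (m := m1)).congr hvc
      intro ω
      rw [div_le_iff₀ (hg₃0 ω)]
      have h4 : (c * I₂)⁻¹ ≤ (C / c) ^ 2 * (C * I₃)⁻¹ := by
        have h2' : c * I₃ ≤ C * I₂ := by
          rwa [inv_mul_le_iff₀ (by positivity), mul_one] at h2
        have h5 : (C / c) ^ 2 * (C * I₃)⁻¹ = C / (c ^ 2 * I₃) := by
          field_simp
        rw [h5, inv_eq_one_div, div_le_div_iff₀ (by positivity) (by positivity)]
        nlinarith [mul_le_mul_of_nonneg_left h2' hc.le]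
      calc g₁ ω ≤ (c * I₂)⁻¹ := hg₁b ω
        _ ≤ (C / c) ^ 2 * (C * I₃)⁻¹ := h4
        _ ≤ (C / c) ^ 2 * g₃ ω := mul_le_mul_of_nonneg_left (hg₃a ω) (by positivity)
    have hvl : Integrable (fun ω => Real.log (g₁ ω / g₃ ω)) P := by
      refine (hg₁l.sub hg₃l).congr (Eventually.of_forall fun ω => ?_)
      simp only [Pi.sub_apply]
      exact (Real.log_div (hg₁0 ω).ne' (hg₃0 ω).ne').symm
    refine ⟨g₁, g₂, (C * I₂)⁻¹, (C * I₁)⁻¹, hg₁m, hg₂m, ha₁, ha₂, hg₁a, fun ω => ?_, hg₂a,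
      fun ω => ?_, hg₂c, hlo, hup, fun ω => g₁ ω / g₃ ω, hg₁m.div hg₃m,
      fun ω => div_pos (hg₁0 ω) (hg₃0 ω), hvup, hvc, hv1, hvl, ?_⟩
    · refine (hg₁b ω).trans (le_of_eq ?_)
      field_simp
    · refine (hg₂b ω).trans (le_of_eq ?_)
      field_simp
    · rw [gm_div hg₁0 hg₃0 hg₁l hg₃l]
      have p5 := gm_pos (P := P) g₃
      rw [div_le_div_iff₀ (by linarith) p5]
      have h1 : s * (gm P g₃ * gm P g₂) ≤ 1 := by
        have := mul_le_mul_of_nonneg_right hlo3 (mul_pos p5 p4).le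
        rwa [inv_mul_cancel₀ (mul_pos p5 p4).ne'] at this
      have h2 : 1 ≤ (s + δ) * (gm P g₁ * gm P g₂) := by
        have := mul_le_mul_of_nonneg_right hup (mul_pos p3 p4).le
        rwa [inv_mul_cancel₀ (mul_pos p3 p4).ne'] at this
      have h3 : s * gm P g₃ * gm P g₂ ≤ gm P g₁ * (s + δ) * gm P g₂ := by
        calc s * gm P g₃ * gm P g₂ = s * (gm P g₃ * gm P g₂) := by ring
          _ ≤ 1 := h1
          _ ≤ _ := h2
          _ = _ := by ring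
      exact le_of_mul_le_mul_right h3 p4
  -- positivity of `s`
  have hsc : c ≤ s := by
    refine le_of_forall_pos_le_add fun δ hδ => ?_
    obtain ⟨g₁, g₂, a₁, a₂, h1, h2, h3, h4, h5, h6, h7, h8, h9, h10, h11, -⟩ := main δ hδ
    refine le_trans ?_ h11
    have hg₁0 : ∀ ω, 0 < g₁ ω := fun ω => h3.trans_le (h5 ω)
    have hg₂0 : ∀ ω, 0 < g₂ ω := fun ω => h4.trans_le (h7 ω)
    have hl1 : Integrable (fun ω => Real.log (g₁ ω)) P :=
      integrable_log_of_bdd (h1.mono hm1 le_rfl) h3 h5 h6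
    have hl2 : Integrable (fun ω => Real.log (g₂ ω)) P :=
      integrable_log_of_bdd (h2.mono hm2 le_rfl) h4 h7 h8
    have hlf : Integrable (fun ω => Real.log (f ω)) P := integrable_log_of_bdd hf hc hfc hfC
    have hi : ∫ ω, g₁ ω * f ω * g₂ ω ∂P = 1 := by
      rw [← integral_condExp hm2, integral_congr_ae h9]
      simp
    have hF0 : ∀ ω, 0 < g₁ ω * f ω * g₂ ω := fun ω =>
      mul_pos (mul_pos (hg₁0 ω) (hf0 ω)) (hg₂0 ω)
    have hlog : ∀ ω, Real.log (g₁ ω * f ω * g₂ ω) =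
        Real.log (g₁ ω) + Real.log (f ω) + Real.log (g₂ ω) := fun ω => by
      rw [Real.log_mul (mul_pos (hg₁0 ω) (hf0 ω)).ne' (hg₂0 ω).ne',
        Real.log_mul (hg₁0 ω).ne' (hf0 ω).ne']
    have hlF : Integrable (fun ω => Real.log (g₁ ω * f ω * g₂ ω)) P := by
      refine ((hl1.add hlf).add hl2).congr (Eventually.of_forall fun ω => ?_)
      simp only [Pi.add_apply]
      exact (hlog ω).symm
    have hiF : Integrable (fun ω => g₁ ω * f ω * g₂ ω) P := by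
      by_contra hcon
      rw [integral_undef hcon] at hi
      exact zero_ne_one hi
    have hj := jensen_exp hF0 hiF hlF
    rw [hi] at hj
    have hfl : Real.log c ≤ ∫ ω, Real.log (f ω) ∂P := by
      calc Real.log c = ∫ _ω : Ω, Real.log c ∂P := by simp
        _ ≤ _ := integral_mono (integrable_const _) hlf fun ω => Real.log_le_log hc (hfc ω)
    have hgm : c * (gm P g₁ * gm P g₂) ≤ gm P (fun ω => g₁ ω * f ω * g₂ ω) := by
      unfold gm
      have h12 : ∫ ω, Real.log (g₁ ω * f ω * g₂ ω) ∂P =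
          ∫ ω, Real.log (g₁ ω) ∂P + ∫ ω, Real.log (f ω) ∂P + ∫ ω, Real.log (g₂ ω) ∂P := by
        have e2 : Integrable (fun ω => Real.log (g₁ ω) + Real.log (f ω)) P := hl1.add hlf
        rw [← integral_add hl1 hlf, ← integral_add e2 hl2]
        exact integral_congr_ae (Eventually.of_forall hlog)
      rw [h12]
      have h13 : c * (Real.exp (∫ ω, Real.log (g₁ ω) ∂P) * Real.exp (∫ ω, Real.log (g₂ ω) ∂P)) =
          Real.exp (∫ ω, Real.log (g₁ ω) ∂P + Real.log c + ∫ ω, Real.log (g₂ ω) ∂P) := by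
        rw [Real.exp_add, Real.exp_add, Real.exp_log hc]
        ring
      rw [h13]
      apply Real.exp_le_exp.2
      linarith
    rw [← one_div, le_div_iff₀ (mul_pos (gm_pos _) (gm_pos _))]
    exact hgm.trans hj
  refine ⟨htop, hsc, fun θ hθ => ?_⟩
  have hspos : 0 < s := hc.trans_le hsc
  -- the choice of `δ`
  set L := Real.sqrt ((C / c) ^ 2) + 1 with hL
  have hL0 : 0 < L := by positivity
  obtain ⟨δ, hδ, hδθ, hδ2⟩ : ∃ δ : ℝ, 0 < δ ∧ δ ≤ θ ∧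
      θ / 2 + L ^ 2 / (4 * (θ / 2)) * (δ / s) ≤ θ := by
    refine ⟨min θ (θ ^ 2 * s / L ^ 2), lt_min hθ (by positivity), min_le_left _ _, ?_⟩
    have h1 : min θ (θ ^ 2 * s / L ^ 2) ≤ θ ^ 2 * s / L ^ 2 := min_le_right _ _
    have h2 : L ^ 2 / (4 * (θ / 2)) * (min θ (θ ^ 2 * s / L ^ 2) / s) ≤
        L ^ 2 / (4 * (θ / 2)) * (θ ^ 2 * s / L ^ 2 / s) :=
      mul_le_mul_of_nonneg_left (div_le_div_of_nonneg_right h1 hspos.le) (by positivity)
    have h3 : L ^ 2 / (4 * (θ / 2)) * (θ ^ 2 * s / L ^ 2 / s) = θ / 2 := by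
      field_simp
      ring
    linarith
  obtain ⟨g₁, g₂, a₁, a₂, h1, h2, h3, h4, h5, h6, h7, h8, h9, h10, h11, v, hvm, hv0, hvM, hvc,
    hv1, hvl, hvg⟩ := main δ hδ
  refine ⟨g₁, g₂, a₁, a₂, h1, h2, h3, h4, h5, h6, h7, h8, h9, h10, h11.trans (by linarith), ?_⟩
  have hvi : Integrable v P := by
    by_contra hcon
    rw [integral_undef hcon] at hv1
    exact zero_ne_one hv1
  have h12 : ∫ ω, |(P[fun ω => g₁ ω * f ω * g₂ ω | m1]) ω - 1| ∂P = ∫ ω, |v ω - 1| ∂P := by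
    refine integral_congr_ae ?_
    filter_upwards [hvc] with ω hω
    rw [hω]
  rw [h12]
  have h13 : ∫ ω, |v ω - 1| ∂P ≤
      ∫ ω, (θ / 2 + L ^ 2 / (4 * (θ / 2)) * (v ω - 1 - Real.log (v ω))) ∂P := by
    refine integral_mono (hvi.sub (integrable_const _)).abs ?_ fun ω =>
      abs_sub_one_le (hv0 ω) (hvM ω) (by linarith)
    exact (integrable_const _).add (((hvi.sub (integrable_const _)).sub hvl).const_mul _)
  refine h13.trans ?_
  have e3 : Integrable (fun ω => v ω - 1) P := hvi.sub (integrable_const _)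
  have e4 : Integrable (fun ω => v ω - 1 - Real.log (v ω)) P := e3.sub hvl
  rw [integral_add (integrable_const _) (e4.const_mul _), integral_const_mul,
    integral_sub e3 hvl, integral_sub hvi (integrable_const _), hv1]
  have h14 : -(δ / s) ≤ ∫ ω, Real.log (v ω) ∂P := by
    have h15 : Real.log (s / (s + δ)) ≤ ∫ ω, Real.log (v ω) ∂P := by
      have := Real.log_le_log (by positivity) hvg
      unfold gm at this
      rwa [Real.log_exp] at this
    have h16 : -(δ / s) ≤ Real.log (s / (s + δ)) := by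
      have h17 := Real.log_le_sub_one_of_pos (show 0 < (s + δ) / s by positivity)
      have h18 : Real.log (s / (s + δ)) = -Real.log ((s + δ) / s) := by
        rw [← Real.log_inv, inv_div]
      have h19 : (s + δ) / s - 1 = δ / s := by
        field_simp
        ring
      rw [h18]
      linarith
    linarith
  have h15 : L ^ 2 / (4 * (θ / 2)) * (1 - ∫ _ω : Ω, (1 : ℝ) ∂P - ∫ ω, Real.log (v ω) ∂P) ≤
      L ^ 2 / (4 * (θ / 2)) * (δ / s) := by
    apply mul_le_mul_of_nonneg_left _ (by positivity)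
    simp only [integral_const, probReal_univ, smul_eq_mul, mul_one]
    linarith
  have h16 : ∫ _ω : Ω, θ / 2 ∂P = θ / 2 := by simp
  rw [h16]
  linarith

end Pool.Agent.K4H40.LLP
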