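import Pool.Agent.K4H40.Per2
import Pool.Agent.K4H40.Erg1
import Pool.Agent.K4H40.Min1

/-!
# The law of large permanents for ergodic actions of `ℕ²`
-/

set_option autoImplicit false

namespace Pool.Agent.K4H40.LLP

open Filter Topology MeasureTheory Set ProbabilityTheory
open scoped ENNReal

open Pool.Agent.K4H40.Erg Pool.Agent.K4H40.Per

variable {Ω : Type*} [m0 : MeasurableSpace Ω] {P : Measure Ω} [IsProbabilityMeasure P]
  {S T : Ω → Ω}

/-- The invariant σ-algebras of the two generators are independent. -/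
theorem indep_invariants (hS : MeasurePreserving S P P) (hT : MeasurePreserving T P P)
    (hST : ∀ ω, S (T ω) = T (S ω))
    (herg : ∀ s, MeasurableSet s → S ⁻¹' s = s → T ⁻¹' s = s → P s = 0 ∨ P s = 1) :
    Indep (MeasurableSpace.invariants S) (MeasurableSpace.invariants T) P := by
  rw [Indep_iff]
  intro s t hs ht
  rw [MeasurableSpace.measurableSet_invariants] at hs ht
  have hle := MeasurableSpace.invariants_le S
  let g : Ω → ℝ := t.indicator fun _ => 1
  have hg : Measurable g := measurable_const.indicator ht.1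
  have hgC : ∀ x, |g x| ≤ 1 := by
    intro x
    show |t.indicator (fun _ => (1 : ℝ)) x| ≤ 1
    by_cases hx : x ∈ t
    · rw [Set.indicator_of_mem hx, abs_one]
    · rw [Set.indicator_of_notMem hx, abs_zero]
      exact zero_le_one
  have hgT : ∀ x, g (T x) = g x := by
    intro x
    have h1 : T x ∈ t ↔ x ∈ t := by
      rw [← Set.mem_preimage, ht.2]
    show t.indicator (fun _ => (1 : ℝ)) (T x) = t.indicator (fun _ => (1 : ℝ)) x
    by_cases hx : x ∈ t
    · rw [Set.indicator_of_mem hx, Set.indicator_of_mem (h1.2 hx)]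
    · rw [Set.indicator_of_notMem hx, Set.indicator_of_notMem fun h => hx (h1.1 h)]
  have h1 := av_tendsto hS hT hST herg hg hgC hgT
  have h2 := Pool.Agent.H165R3.BPE.birkhoff hS g hg 1 hgC
  have hint : Integrable g P := (integrable_const (1 : ℝ)).indicator ht.1
  have h3 : P[g | MeasurableSpace.invariants S] =ᵐ[P] fun _ => P.real t := by
    filter_upwards [h1, h2] with ω h4 h5
    have h6 := tendsto_nhds_unique h5 h4
    rw [h6]
    show ∫ x, t.indicator (fun _ => (1 : ℝ)) x ∂P = P.real t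
    rw [integral_indicator ht.1]
    simp
  have h4 : ∫ x in s, g x ∂P = P.real (s ∩ t) := by
    show ∫ x in s, t.indicator (fun _ => (1 : ℝ)) x ∂P = P.real (s ∩ t)
    rw [setIntegral_indicator ht.1]
    simp
  have h5 : ∫ x in s, g x ∂P = P.real s * P.real t := by
    rw [← setIntegral_condExp hle hint
      (MeasurableSpace.measurableSet_invariants.2 hs)]
    rw [setIntegral_congr_ae hs.1 (h3.mono fun x hx _ => hx)]
    simp
  have h6 : P.real (s ∩ t) = P.real s * P.real t := h4.symm.trans h5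
  have h7 : (P (s ∩ t)).toReal = (P s * P t).toReal := by
    rw [ENNReal.toReal_mul]
    exact h6
  exact (ENNReal.toReal_eq_toReal_iff' (measure_ne_top _ _)
    (ENNReal.mul_ne_top (measure_ne_top _ _) (measure_ne_top _ _))).1 h7

theorem sum_fin_range (n : ℕ) (a : ℕ → ℝ) : ∑ i : Fin n, a i = ∑ i ∈ Finset.range n, a i :=
  Fin.sum_univ_eq_sum_range a n

theorem sum_eq_av {n : ℕ} (hn : 0 < n) (S : Ω → Ω) (g : Ω → ℝ) (ω : Ω) :
    ∑ i : Fin n, g (S^[i] ω) = n * av S g n ω := by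
  have : (n : ℝ) ≠ 0 := by positivity
  unfold av
  rw [← mul_assoc, mul_inv_cancel₀ this, one_mul]
  exact sum_fin_range n fun i => g (S^[i] ω)

/-- the deviation of the row sums -/
theorem dev_le {n : ℕ} (hn : 0 < n) (S : Ω → Ω) (x : Ω → ℝ) (hx : ∀ ω, 0 < x ω) (ω : Ω)
    (σ : ℝ) (hσ : σ = av S x n ω) (hσ0 : 0 < σ) :
    ∑ i : Fin n, |(n : ℝ)⁻¹ - (n * x (S^[i] ω)) / ((n : ℝ) ^ 2 * σ)| ≤
      av S (fun y => |x y - 1|) n ω + |σ - 1| := by
  have hn0 : (0 : ℝ) < n := by exact_mod_cast hn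
  have h1 : ∀ i : Fin n, |(n : ℝ)⁻¹ - (n * x (S^[i] ω)) / ((n : ℝ) ^ 2 * σ)| ≤
      (n : ℝ)⁻¹ * |x (S^[i] ω) - 1| + (n : ℝ)⁻¹ * (x (S^[i] ω) * |1 - σ⁻¹|) := by
    intro i
    set y := x (S^[i] ω) with hy
    have hy0 : 0 < y := hx _
    have h2 : (n : ℝ)⁻¹ - (n * y) / ((n : ℝ) ^ 2 * σ) =
        (n : ℝ)⁻¹ * ((1 - y) + y * (1 - σ⁻¹)) := by
      field_simp
      ring
    rw [h2, abs_mul, abs_of_pos (inv_pos.2 hn0), ← mul_add]
    apply mul_le_mul_of_nonneg_left _ (inv_pos.2 hn0).le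
    refine (abs_add_le _ _).trans ?_
    rw [abs_mul, abs_of_pos hy0, abs_sub_comm]
  refine (Finset.sum_le_sum fun i _ => h1 i).trans ?_
  rw [Finset.sum_add_distrib, ← Finset.mul_sum, ← Finset.mul_sum, ← Finset.sum_mul]
  have h2 : (n : ℝ)⁻¹ * ∑ i : Fin n, |x (S^[i] ω) - 1| = av S (fun y => |x y - 1|) n ω := by
    unfold av
    rw [sum_fin_range n fun i => |x (S^[i] ω) - 1|]
  have h3 : (n : ℝ)⁻¹ * ((∑ i : Fin n, x (S^[i] ω)) * |1 - σ⁻¹|) = |σ - 1| := by
    rw [← mul_assoc, sum_fin_range n fun i => x (S^[i] ω)]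
    have h4 : (n : ℝ)⁻¹ * ∑ i ∈ Finset.range n, x (S^[i] ω) = σ := by
      rw [hσ]
      rfl
    rw [h4]
    have h5 : σ - 1 = σ * (1 - σ⁻¹) := by
      field_simp
    rw [h5, abs_mul, abs_of_pos hσ0]
  rw [h2, h3]

/-- **The main estimate.** -/
theorem approx (hS : MeasurePreserving S P P) (hT : MeasurePreserving T P P)
    (hST : ∀ ω, S (T ω) = T (S ω))
    (herg : ∀ s, MeasurableSet s → S ⁻¹' s = s → T ⁻¹' s = s → P s = 0 ∨ P s = 1)
    {f : Ω → ℝ} {c C : ℝ} (hc : 0 < c) (hf : Measurable f) (hfc : ∀ ω, c ≤ f ω)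
    (hfC : ∀ ω, f ω ≤ C) {θ : ℝ} (hθ : 0 < θ) :
    ∀ᵐ ω ∂P, ∀ᶠ n : ℕ in atTop,
      Real.log (smean (MeasurableSpace.invariants S) (MeasurableSpace.invariants T) P f).toReal -
        (3 * Real.log (C / c) + 1) * θ ≤
          (n : ℝ)⁻¹ * Real.log ((sample S T f n ω).permanent / n.factorial) ∧
      (n : ℝ)⁻¹ * Real.log ((sample S T f n ω).permanent / n.factorial) ≤
        Real.log ((smean (MeasurableSpace.invariants S) (MeasurableSpace.invariants T)
          P f).toReal + θ) + θ := by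
  have hne : Nonempty Ω := nonempty_of_isProbabilityMeasure P
  have hcC : c ≤ C := (hfc hne.some).trans (hfC hne.some)
  have hC : 0 < C := hc.trans_le hcC
  have hf0 : ∀ ω, 0 < f ω := fun ω => hc.trans_le (hfc ω)
  have hle1 := MeasurableSpace.invariants_le S
  have hle2 := MeasurableSpace.invariants_le T
  obtain ⟨htop, hsc, hnear⟩ := near hle1 hle2 (indep_invariants hS hT hST herg) hc hf hfc hfC
  set s := (smean (MeasurableSpace.invariants S) (MeasurableSpace.invariants T) P f).toReal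
    with hs
  have hs0 : 0 < s := hc.trans_le hsc
  obtain ⟨g₁, g₂, a₁, a₂, hg₁m, hg₂m, ha₁, ha₂, hg₁a, hg₁b, hg₂a, hg₂b, hF2, hlo, hup, hF1⟩ :=
    hnear θ hθ
  have hg₁m' : Measurable g₁ := hg₁m.mono hle1 le_rfl
  have hg₂m' : Measurable g₂ := hg₂m.mono hle2 le_rfl
  have hg₁0 : ∀ ω, 0 < g₁ ω := fun ω => ha₁.trans_le (hg₁a ω)
  have hg₂0 : ∀ ω, 0 < g₂ ω := fun ω => ha₂.trans_le (hg₂a ω)
  have hg₁S : ∀ ω, g₁ (S ω) = g₁ ω := fun ω =>
    congrFun (MeasurableSpace.comp_eq_of_measurable_invariants hg₁m) ω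
  have hg₂T : ∀ ω, g₂ (T ω) = g₂ ω := fun ω =>
    congrFun (MeasurableSpace.comp_eq_of_measurable_invariants hg₂m) ω
  have hg₁Si : ∀ i ω, g₁ (S^[i] ω) = g₁ ω := by
    intro i
    induction i with
    | zero => intro ω; rfl
    | succ i ih =>
      intro ω
      rw [Function.iterate_succ_apply', hg₁S, ih]
  have hg₂Ti : ∀ i ω, g₂ (T^[i] ω) = g₂ ω := by
    intro i
    induction i with
    | zero => intro ω; rfl
    | succ i ih =>
      intro ω
      rw [Function.iterate_succ_apply', hg₂T, ih]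
  let F : Ω → ℝ := fun ω => g₁ ω * f ω * g₂ ω
  have hFm : Measurable F := (hg₁m'.mul hf).mul hg₂m'
  set a := a₁ * c * a₂ with ha
  set b := a₁ * (C / c) * C * (a₂ * (C / c)) with hb
  have ha0 : 0 < a := by positivity
  have hb0 : 0 < b := by positivity
  have hFa : ∀ ω, a ≤ F ω := fun ω =>
    mul_le_mul (mul_le_mul (hg₁a ω) (hfc ω) hc.le (hg₁0 ω).le) (hg₂a ω) ha₂.le
      (mul_pos (hg₁0 ω) (hf0 ω)).le
  have hFb : ∀ ω, F ω ≤ b := fun ω =>
    mul_le_mul (mul_le_mul (hg₁b ω) (hfC ω) (hf0 ω).le ((hg₁0 ω).le.trans (hg₁b ω))) (hg₂b ω)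
      (hg₂0 ω).le (by positivity)
  have hF0 : ∀ ω, 0 < F ω := fun ω => ha0.trans_le (hFa ω)
  have hFC : ∀ ω, |F ω| ≤ b := fun ω => by
    rw [abs_of_pos (hF0 ω)]
    exact hFb ω
  have hFi : Integrable F P := integrable_of_bdd hFm hFa hFb
  have hint : ∫ ω, F ω ∂P = 1 := by
    rw [← integral_condExp hle2, integral_congr_ae hF2]
    simp
  have ha1 : a ≤ 1 := by
    rw [← hint]
    calc a = ∫ _ω : Ω, a ∂P := by simp
      _ ≤ _ := integral_mono (integrable_const _) hFi hFa
  have hb1 : 1 ≤ b := by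
    rw [← hint]
    calc _ ≤ ∫ _ω : Ω, b ∂P := integral_mono hFi (integrable_const _) hFb
      _ = b := by simp
  have hbK : b = a * (C / c) ^ 3 := by
    rw [ha, hb]
    field_simp
  set Λ := 3 * Real.log (C / c) with hΛ
  have hlogab : Real.log b - Real.log a = Λ := by
    rw [hbK, Real.log_mul ha0.ne' (by positivity), Real.log_pow, hΛ]
    push_cast
    ring
  have hla : Real.log a ≤ 0 := Real.log_nonpos ha0.le ha1
  have hlb : 0 ≤ Real.log b := Real.log_nonneg hb1
  have hΛ0 : 0 ≤ Λ := by linarith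
  obtain ⟨K, hK⟩ := exists_nat_ge ((C / c) ^ 3)
  have hK1 : 1 ≤ K := by
    have h1 : (1 : ℝ) ≤ (C / c) ^ 3 := one_le_pow₀ ((one_le_div hc).2 hcC)
    exact_mod_cast h1.trans hK
  have hbKa : b ≤ K * a := by
    rw [hbK, mul_comm]
    exact mul_le_mul_of_nonneg_right hK ha0.le
  -- the ergodic theorems
  have hST' : ∀ ω, T (S ω) = S (T ω) := fun ω => (hST ω).symm
  have herg' : ∀ s, MeasurableSet s → T ⁻¹' s = s → S ⁻¹' s = s → P s = 0 ∨ P s = 1 :=
    fun s h1 h2 h3 => herg s h1 h3 h2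
  have hR1 := rows hS hT hST herg hFm hFC 1
  have hR2 := rows hT hS hST' herg' hFm hFC 1
  obtain ⟨B1, hB1⟩ : ∃ B, ∀ ω, |Real.log (g₁ ω)| ≤ B := by
    refine ⟨max |Real.log a₁| |Real.log (a₁ * (C / c))|, fun ω => ?_⟩
    exact abs_le_max_abs_abs (Real.log_le_log ha₁ (hg₁a ω)) (Real.log_le_log (hg₁0 ω) (hg₁b ω))
  obtain ⟨B2, hB2⟩ : ∃ B, ∀ ω, |Real.log (g₂ ω)| ≤ B := by
    refine ⟨max |Real.log a₂| |Real.log (a₂ * (C / c))|, fun ω => ?_⟩
    exact abs_le_max_abs_abs (Real.log_le_log ha₂ (hg₂a ω)) (Real.log_le_log (hg₂0 ω) (hg₂b ω))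
  have hR3 := av_tendsto hT hS hST' herg' (g := fun ω => Real.log (g₁ ω))
    (Real.measurable_log.comp hg₁m') hB1 (fun x => by rw [hg₁S])
  have hR4 := av_tendsto hS hT hST herg (g := fun ω => Real.log (g₂ ω))
    (Real.measurable_log.comp hg₂m') hB2 (fun x => by rw [hg₂T])
  have hzero : ∫ x, |(P[F | MeasurableSpace.invariants T]) x - 1| ∂P = 0 := by
    rw [integral_eq_zero_iff_of_nonneg (fun _ => abs_nonneg _)]
    · filter_upwards [hF2] with ω hω
      show |(P[F | MeasurableSpace.invariants T]) ω - 1| = 0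
      have hω' : (P[F | MeasurableSpace.invariants T]) ω = 1 := hω
      rw [hω', sub_self, abs_zero]
    · exact (integrable_condExp.sub (integrable_const _)).abs
  have hJ1 : Real.log s ≤ -∫ ω, Real.log (g₁ ω) ∂P - ∫ ω, Real.log (g₂ ω) ∂P := by
    have h1 := Real.log_le_log hs0 hlo
    unfold gm at h1
    rw [← Real.exp_add, ← Real.exp_neg, Real.log_exp] at h1
    linarith
  have hJ2 : -∫ ω, Real.log (g₁ ω) ∂P - ∫ ω, Real.log (g₂ ω) ∂P ≤ Real.log (s + θ) := by
    have h1 := Real.log_le_log (inv_pos.2 (mul_pos (gm_pos g₁) (gm_pos g₂))) hup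
    unfold gm at h1
    rw [← Real.exp_add, ← Real.exp_neg, Real.log_exp] at h1
    linarith
  filter_upwards [hR1, hR2, hR3, hR4] with ω k1 k2 k3 k4
  obtain ⟨k1a, e, he, hle⟩ := k1
  obtain ⟨-, e', he', hle'⟩ := k2
  rw [hint] at k1a
  rw [hzero] at he
  set σ : ℕ → ℝ := fun n => av S (fun x => av T F n x) n ω with hσ
  have hσlog : Tendsto (fun n => Real.log (σ n)) atTop (𝓝 0) := by
    have := k1a.log one_ne_zero
    rwa [Real.log_one] at this
  have hσabs : Tendsto (fun n => |σ n - 1|) atTop (𝓝 0) := by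
    have := (k1a.sub_const 1).abs
    rwa [sub_self, abs_zero] at this
  -- the identity of permanents
  have hper : ∀ n : ℕ, 0 < n → (n : ℝ)⁻¹ * Real.log ((sample S T f n ω).permanent / n.factorial) =
      (n : ℝ)⁻¹ * Real.log ((sample S T F n ω).permanent / n.factorial) +
        (-av T (fun ω => Real.log (g₁ ω)) n ω - av S (fun ω => Real.log (g₂ ω)) n ω) := by
    intro n hn
    have hn0 : (0 : ℝ) < n := by exact_mod_cast hn
    have h1 : sample S T F n ω =
        Matrix.of fun i j : Fin n => g₂ (S^[i] ω) * sample S T f n ω i j * g₁ (T^[j] ω) := by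
      ext i j
      simp only [sample, Matrix.of_apply]
      show g₁ (S^[i] (T^[j] ω)) * f (S^[i] (T^[j] ω)) * g₂ (S^[i] (T^[j] ω)) = _
      rw [hg₁Si, show g₂ (S^[i] (T^[j] ω)) = g₂ (S^[i] ω) by
        rw [comm_iterate (S := S) (T := T) hST, hg₂Ti]]
      ring
    have hp : 0 < (sample S T f n ω).permanent := per_pos fun i j => hf0 _
    have h2 : 0 < ∏ i : Fin n, g₂ (S^[i] ω) := Finset.prod_pos fun i _ => hg₂0 _
    have h3 : 0 < ∏ j : Fin n, g₁ (T^[j] ω) := Finset.prod_pos fun i _ => hg₁0 _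
    have hfac : (0 : ℝ) < n.factorial := by positivity
    rw [h1, per_scale, Real.log_div hp.ne' hfac.ne',
      Real.log_div (mul_pos (mul_pos h2 hp) h3).ne' hfac.ne',
      Real.log_mul (mul_pos h2 hp).ne' h3.ne', Real.log_mul h2.ne' hp.ne',
      Real.log_prod (fun i _ => (hg₂0 _).ne'), Real.log_prod (fun i _ => (hg₁0 _).ne'),
      sum_eq_av hn S (fun ω => Real.log (g₂ ω)) ω, sum_eq_av hn T (fun ω => Real.log (g₁ ω)) ω]
    field_simp
    ring
  -- the bounds
  have hmat : ∀ n : ℕ, 0 < n → (∀ i : Fin n, ∑ j, sample S T F n ω i j =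
        n * av T F n (S^[i] ω)) ∧ (∀ j : Fin n, ∑ i, sample S T F n ω i j =
        n * av S F n (T^[j] ω)) ∧ ∑ i, ∑ j, sample S T F n ω i j = (n : ℝ) ^ 2 * σ n ∧
        (n : ℝ) ^ 2 * σ n = (n : ℝ) ^ 2 * av T (fun x => av S F n x) n ω := by
    intro n hn
    have h1 : ∀ i : Fin n, ∑ j, sample S T F n ω i j = n * av T F n (S^[i] ω) := by
      intro i
      rw [← sum_eq_av hn]
      refine Finset.sum_congr rfl fun j _ => ?_
      show F (S^[i] (T^[j] ω)) = _
      rw [comm_iterate (S := S) (T := T) hST]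
    have h2 : ∀ j : Fin n, ∑ i, sample S T F n ω i j = n * av S F n (T^[j] ω) := by
      intro j
      rw [← sum_eq_av hn]
      rfl
    have h3 : ∑ i, ∑ j, sample S T F n ω i j = (n : ℝ) ^ 2 * σ n := by
      rw [Finset.sum_congr rfl fun i _ => h1 i, ← Finset.mul_sum,
        sum_eq_av hn S (fun x => av T F n x) ω]
      ring
    have h4 : ∑ i, ∑ j, sample S T F n ω i j =
        (n : ℝ) ^ 2 * av T (fun x => av S F n x) n ω := by
      rw [Finset.sum_comm, Finset.sum_congr rfl fun i _ => h2 i, ← Finset.mul_sum,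
        sum_eq_av hn T (fun x => av S F n x) ω]
      ring
    exact ⟨h1, h2, h3, h3.symm.trans h4⟩
  have havpos : ∀ (R : Ω → Ω) (n : ℕ), 0 < n → ∀ x, 0 < av R F n x := by
    intro R n hn x
    unfold av
    have hn0 : (0 : ℝ) < n := by exact_mod_cast hn
    exact mul_pos (inv_pos.2 hn0) (Finset.sum_pos (fun i _ => hF0 _)
      (Finset.nonempty_range_iff.2 (by omega)))
  have hσpos : ∀ n : ℕ, 0 < n → 0 < σ n := by
    intro n hn
    have hn0 : (0 : ℝ) < n := by exact_mod_cast hn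
    show 0 < av S (fun x => av T F n x) n ω
    unfold av
    exact mul_pos (inv_pos.2 hn0) (Finset.sum_pos (fun i _ => havpos T n hn _)
      (Finset.nonempty_range_iff.2 (by omega)))
  have hlower : ∀ n : ℕ, 0 < n → Real.log (σ n) - Λ * (e n + e' n + 2 * |σ n - 1|) ≤
      (n : ℝ)⁻¹ * Real.log ((sample S T F n ω).permanent / n.factorial) := by
    intro n hn
    have hn0 : (0 : ℝ) < n := by exact_mod_cast hn
    obtain ⟨h1, h2, h3, h4⟩ := hmat n hn
    have h5 := log_per_div_ge (Λ := Λ) ha0 hb0 (by linarith) (by linarith) (by linarith) hn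
      (sample S T F n ω) (fun i j => hFa _) (fun i j => hFb _)
    rw [h3] at h5
    have h6 : (n : ℝ) ^ 2 * σ n / (n : ℝ) ^ 2 = σ n := by
      field_simp
    rw [h6] at h5
    have h7 : ∑ i, |(n : ℝ)⁻¹ - (∑ j, sample S T F n ω i j) / ((n : ℝ) ^ 2 * σ n)| ≤
        e n + |σ n - 1| := by
      rw [Finset.sum_congr rfl fun i _ => by rw [h1 i]]
      exact (dev_le hn S (fun x => av T F n x) (havpos T n hn) ω (σ n) rfl (hσpos n hn)).trans
        (add_le_add (hle n) le_rfl)
    have h8 : ∑ j, |(n : ℝ)⁻¹ - (∑ i, sample S T F n ω i j) / ((n : ℝ) ^ 2 * σ n)| ≤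
        e' n + |σ n - 1| := by
      rw [Finset.sum_congr rfl fun i _ => by rw [h2 i]]
      have h9 : σ n = av T (fun x => av S F n x) n ω :=
        mul_left_cancel₀ (by positivity) h4
      exact (dev_le hn T (fun x => av S F n x) (havpos S n hn) ω (σ n) h9 (hσpos n hn)).trans
        (add_le_add (hle' n) le_rfl)
    have h9 : Real.log (σ n) - Λ * (e n + e' n + 2 * |σ n - 1|) ≤
        Real.log (σ n) - Λ * (∑ i, |(n : ℝ)⁻¹ - (∑ j, sample S T F n ω i j) /
          ((n : ℝ) ^ 2 * σ n)| + ∑ j, |(n : ℝ)⁻¹ - (∑ i, sample S T F n ω i j) /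
          ((n : ℝ) ^ 2 * σ n)|) := by
      have := mul_le_mul_of_nonneg_left (add_le_add h7 h8) hΛ0
      nlinarith
    refine h9.trans ?_
    rw [← div_eq_inv_mul, le_div_iff₀ hn0, mul_comm]
    exact h5
  have hupper : ∀ n : ℕ, 2 ≤ n →
      (n : ℝ)⁻¹ * Real.log ((sample S T F n ω).permanent / n.factorial) ≤
      Real.log (σ n) + (Real.log ((n : ℝ) / ((n : ℝ) - 1)) +
        ((K : ℝ) - 1) * ((n : ℝ)⁻¹ + Real.log n / n)) := by
    intro n hn
    have hn' : (2 : ℝ) ≤ n := by exact_mod_cast hn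
    have hn0 : (0 : ℝ) < n := by linarith
    have hn1 : (0 : ℝ) < (n : ℝ) - 1 := by linarith
    obtain ⟨h1, h2, h3, h4⟩ := hmat n (by omega)
    have h5 := log_per_div_le ha0 hK1 hb0 hbKa hn (sample S T F n ω) (fun i j => hFa _)
      (fun i j => hFb _)
    rw [h3] at h5
    have h6 : (n : ℝ) ^ 2 * σ n / (n * ((n : ℝ) - 1)) = σ n * ((n : ℝ) / ((n : ℝ) - 1)) := by
      field_simp
    rw [h6, Real.log_mul (hσpos n (by omega)).ne' (by positivity)] at h5
    rw [← div_eq_inv_mul, div_le_iff₀ hn0]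
    refine h5.trans (le_of_eq ?_)
    field_simp
    ring
  have hlim1 : Tendsto (fun n : ℕ => Real.log ((n : ℝ) / ((n : ℝ) - 1)) +
      ((K : ℝ) - 1) * ((n : ℝ)⁻¹ + Real.log n / n)) atTop (𝓝 0) := by
    have h1 : Tendsto (fun n : ℕ => (n : ℝ) / ((n : ℝ) - 1)) atTop (𝓝 1) := by
      have h2 : Tendsto (fun n : ℕ => 1 + ((n : ℝ) - 1)⁻¹) atTop (𝓝 (1 + 0)) := by
        refine tendsto_const_nhds.add (tendsto_inv_atTop_zero.comp ?_)
        exact tendsto_atTop_add_const_right _ _ tendsto_natCast_atTop_atTop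
      rw [add_zero] at h2
      refine h2.congr' ?_
      filter_upwards [eventually_ge_atTop 2] with n hn
      have hn' : (2 : ℝ) ≤ n := by exact_mod_cast hn
      have hn1 : (n : ℝ) - 1 ≠ 0 := by linarith
      field_simp
      ring
    have h2 : Tendsto (fun n : ℕ => Real.log ((n : ℝ) / ((n : ℝ) - 1))) atTop (𝓝 0) := by
      have := h1.log one_ne_zero
      rwa [Real.log_one] at this
    have h3 : Tendsto (fun n : ℕ => (n : ℝ)⁻¹ + Real.log n / n) atTop (𝓝 (0 + 0)) := by
      refine tendsto_inv_atTop_nhds_zero_nat.add ?_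
      have h4 := (Real.isLittleO_log_id_atTop).tendsto_div_nhds_zero
      exact h4.comp tendsto_natCast_atTop_atTop
    rw [add_zero] at h3
    have h4 := h2.add (h3.const_mul ((K : ℝ) - 1))
    rw [mul_zero, add_zero] at h4
    exact h4
  have hlimlow : Tendsto (fun n => Real.log (σ n) - Λ * (e n + e' n + 2 * |σ n - 1|) +
      (-av T (fun ω => Real.log (g₁ ω)) n ω - av S (fun ω => Real.log (g₂ ω)) n ω)) atTop
      (𝓝 (0 - Λ * (0 + ∫ x, |(P[F | MeasurableSpace.invariants S]) x - 1| ∂P + 2 * 0) +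
        (-∫ ω, Real.log (g₁ ω) ∂P - ∫ ω, Real.log (g₂ ω) ∂P))) :=
    (hσlog.sub (((he.add he').add (hσabs.const_mul 2)).const_mul Λ)).add (k3.neg.sub k4)
  have hlimup : Tendsto (fun n => Real.log (σ n) + (Real.log ((n : ℝ) / ((n : ℝ) - 1)) +
        ((K : ℝ) - 1) * ((n : ℝ)⁻¹ + Real.log n / n)) +
      (-av T (fun ω => Real.log (g₁ ω)) n ω - av S (fun ω => Real.log (g₂ ω)) n ω)) atTop
      (𝓝 (0 + 0 + (-∫ ω, Real.log (g₁ ω) ∂P - ∫ ω, Real.log (g₂ ω) ∂P))) :=
    (hσlog.add hlim1).add (k3.neg.sub k4)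
  have hlow' : ∀ᶠ n in atTop, Real.log s - (Λ + 1) * θ <
      Real.log (σ n) - Λ * (e n + e' n + 2 * |σ n - 1|) +
      (-av T (fun ω => Real.log (g₁ ω)) n ω - av S (fun ω => Real.log (g₂ ω)) n ω) := by
    refine hlimlow.eventually (lt_mem_nhds ?_)
    have h1 : Λ * ∫ x, |(P[F | MeasurableSpace.invariants S]) x - 1| ∂P ≤ Λ * θ :=
      mul_le_mul_of_nonneg_left hF1 hΛ0
    nlinarith
  have hup' : ∀ᶠ n in atTop, Real.log (σ n) + (Real.log ((n : ℝ) / ((n : ℝ) - 1)) +
        ((K : ℝ) - 1) * ((n : ℝ)⁻¹ + Real.log n / n)) +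
      (-av T (fun ω => Real.log (g₁ ω)) n ω - av S (fun ω => Real.log (g₂ ω)) n ω) <
      Real.log (s + θ) + θ := by
    refine hlimup.eventually (gt_mem_nhds ?_)
    linarith
  filter_upwards [hlow', hup', eventually_ge_atTop 2] with n h1 h2 hn
  rw [hper n (by omega)]
  have h3 := hlower n (by omega)
  have h4 := hupper n hn
  constructor <;> linarith

/-- The law of large permanents for functions with values in `[c, C]`. -/
theorem tendsto_log (hS : MeasurePreserving S P P) (hT : MeasurePreserving T P P)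
    (hST : ∀ ω, S (T ω) = T (S ω))
    (herg : ∀ s, MeasurableSet s → S ⁻¹' s = s → T ⁻¹' s = s → P s = 0 ∨ P s = 1)
    {f : Ω → ℝ} {c C : ℝ} (hc : 0 < c) (hf : Measurable f) (hfc : ∀ ω, c ≤ f ω)
    (hfC : ∀ ω, f ω ≤ C) :
    ∀ᵐ ω ∂P, Tendsto (fun n : ℕ =>
      (n : ℝ)⁻¹ * Real.log ((sample S T f n ω).permanent / n.factorial)) atTop
      (𝓝 (Real.log (smean (MeasurableSpace.invariants S) (MeasurableSpace.invariants T)
        P f).toReal)) := by
  obtain ⟨htop, hsc, -⟩ := near (MeasurableSpace.invariants_le S) (MeasurableSpace.invariants_le T)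
    (indep_invariants hS hT hST herg) hc hf hfc hfC
  set s := (smean (MeasurableSpace.invariants S) (MeasurableSpace.invariants T) P f).toReal
    with hs
  have hs0 : 0 < s := hc.trans_le hsc
  have hall : ∀ᵐ ω ∂P, ∀ k : ℕ, ∀ᶠ n : ℕ in atTop,
      Real.log s - (3 * Real.log (C / c) + 1) * (1 / ((k : ℝ) + 1)) ≤
          (n : ℝ)⁻¹ * Real.log ((sample S T f n ω).permanent / n.factorial) ∧
      (n : ℝ)⁻¹ * Real.log ((sample S T f n ω).permanent / n.factorial) ≤
        Real.log (s + 1 / ((k : ℝ) + 1)) + 1 / ((k : ℝ) + 1) := by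
    rw [ae_all_iff]
    intro k
    exact approx hS hT hST herg hc hf hfc hfC (by positivity)
  filter_upwards [hall] with ω hω
  have hk : Tendsto (fun k : ℕ => 1 / ((k : ℝ) + 1)) atTop (𝓝 0) :=
    tendsto_one_div_add_atTop_nhds_zero_nat
  have h1 : Tendsto (fun k : ℕ => Real.log s - (3 * Real.log (C / c) + 1) * (1 / ((k : ℝ) + 1)))
      atTop (𝓝 (Real.log s)) := by
    have := (tendsto_const_nhds (x := Real.log s)).sub
      (hk.const_mul (3 * Real.log (C / c) + 1))
    rwa [mul_zero, sub_zero] at this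
  have h2 : Tendsto (fun k : ℕ => Real.log (s + 1 / ((k : ℝ) + 1)) + 1 / ((k : ℝ) + 1))
      atTop (𝓝 (Real.log s)) := by
    have h3 : Tendsto (fun k : ℕ => s + 1 / ((k : ℝ) + 1)) atTop (𝓝 s) := by
      have := (tendsto_const_nhds (x := s)).add hk
      rwa [add_zero] at this
    have := (h3.log hs0.ne').add hk
    rwa [add_zero] at this
  rw [tendsto_order]
  constructor
  · intro a ha
    obtain ⟨k, hk⟩ := (h1.eventually (lt_mem_nhds ha)).exists
    filter_upwards [hω k] with n hn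
    exact hk.trans_le hn.1
  · intro a ha
    obtain ⟨k, hk⟩ := (h2.eventually (gt_mem_nhds ha)).exists
    filter_upwards [hω k] with n hn
    exact hn.2.trans_lt hk

theorem iterate_qmp (hS : MeasurePreserving S P P) (hT : MeasurePreserving T P P) (i j : ℕ) :
    MeasurePreserving (fun ω => S^[i] (T^[j] ω)) P P :=
  (hS.iterate i).comp (hT.iterate j)

/-- **The law of large permanents** for ergodic actions of `ℕ²`. -/
theorem main (hS : MeasurePreserving S P P) (hT : MeasurePreserving T P P)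
    (hST : ∀ ω, S (T ω) = T (S ω))
    (herg : ∀ s, MeasurableSet s → S ⁻¹' s = s → T ⁻¹' s = s → P s = 0 ∨ P s = 1)
    {f : Ω → ℝ} (hf : Measurable f) (hb : ∃ B, ∀ᵐ ω ∂P, 0 < f ω ∧ |Real.log (f ω)| ≤ B) :
    ∀ᵐ ω ∂P, Tendsto (fun n : ℕ => ENNReal.ofReal (pmean (sample S T f n ω))) atTop
      (𝓝 (smean (MeasurableSpace.invariants S) (MeasurableSpace.invariants T) P f)) := by
  obtain ⟨B, hB⟩ := hb
  have hB0 : 0 ≤ B := by
    have hne : Nonempty Ω := nonempty_of_isProbabilityMeasure P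
    obtain ⟨ω, hω⟩ := hB.exists
    exact (abs_nonneg _).trans hω.2
  -- the truncation
  let f' : Ω → ℝ := fun ω => max (Real.exp (-B)) (min (Real.exp B) (f ω))
  have hf' : Measurable f' := measurable_const.max (measurable_const.min hf)
  have hf'c : ∀ ω, Real.exp (-B) ≤ f' ω := fun ω => le_max_left _ _
  have hf'C : ∀ ω, f' ω ≤ Real.exp B := fun ω =>
    max_le (Real.exp_le_exp.2 (by linarith)) (min_le_left _ _)
  have hff' : ∀ᵐ ω ∂P, f' ω = f ω := by
    filter_upwards [hB] with ω hω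
    obtain ⟨h1, h2⟩ := hω
    rw [abs_le] at h2
    have h3 : Real.exp (-B) ≤ f ω := by
      rw [← Real.exp_log h1]
      exact Real.exp_le_exp.2 h2.1
    have h4 : f ω ≤ Real.exp B := by
      rw [← Real.exp_log h1]
      exact Real.exp_le_exp.2 h2.2
    show max (Real.exp (-B)) (min (Real.exp B) (f ω)) = f ω
    rw [min_eq_right h4, max_eq_right h3]
  have hsm : smean (MeasurableSpace.invariants S) (MeasurableSpace.invariants T) P f' =
      smean (MeasurableSpace.invariants S) (MeasurableSpace.invariants T) P f := by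
    unfold smean
    refine iInf_congr fun g₁ => iInf_congr fun _ => iInf_congr fun g₂ => iInf_congr fun _ => ?_
    congr 1
    refine lintegral_congr_ae ?_
    filter_upwards [hff'] with ω hω
    rw [hω]
  have horb : ∀ᵐ ω ∂P, ∀ i j : ℕ, f' (S^[i] (T^[j] ω)) = f (S^[i] (T^[j] ω)) := by
    rw [ae_all_iff]
    intro i
    rw [ae_all_iff]
    intro j
    exact (iterate_qmp hS hT i j).quasiMeasurePreserving.ae hff'
  obtain ⟨htop, hsc, -⟩ := near (MeasurableSpace.invariants_le S) (MeasurableSpace.invariants_le T)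
    (indep_invariants hS hT hST herg) (Real.exp_pos _) hf' hf'c hf'C
  have h1 := tendsto_log hS hT hST herg (Real.exp_pos (-B)) hf' hf'c hf'C
  rw [hsm] at h1 htop hsc
  set s := (smean (MeasurableSpace.invariants S) (MeasurableSpace.invariants T) P f).toReal
    with hs
  have hs0 : 0 < s := (Real.exp_pos _).trans_le hsc
  filter_upwards [h1, horb] with ω h2 h3
  have h4 : ∀ n, sample S T f' n ω = sample S T f n ω := by
    intro n
    ext i j
    exact h3 i j
  have h5 : Tendsto (fun n : ℕ => pmean (sample S T f n ω)) atTop (𝓝 s) := by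
    have h6 := (Real.continuous_exp.tendsto _).comp h2
    rw [Real.exp_log hs0] at h6
    refine h6.congr fun n => ?_
    simp only [Function.comp]
    rw [h4 n]
    unfold pmean
    have hp : 0 < (sample S T f n ω).permanent := by
      rw [← h4 n]
      exact per_pos fun i j => (Real.exp_pos _).trans_le (hf'c _)
    have hfac : (0 : ℝ) < n.factorial := by positivity
    rw [Real.rpow_def_of_pos (div_pos hp hfac)]
    congr 1
    rw [one_div]
    ring
  have h6 := (ENNReal.continuous_ofReal.tendsto s).comp h5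
  rw [hs, ENNReal.ofReal_toReal htop] at h6
  exact h6

end Pool.Agent.K4H40.LLP
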