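import Mathlib

/-!
# The law of large permanents: definitions
-/

set_option autoImplicit false

namespace Pool.Agent.K4H40.LLP

open MeasureTheory
open scoped ENNReal

/-- The permanental mean `(per B / N!) ^ (1 / N)` of an `N × N` matrix. -/
noncomputable def pmean {N : ℕ} (B : Matrix (Fin N) (Fin N) ℝ) : ℝ :=
  (B.permanent / (N.factorial : ℝ)) ^ (1 / (N : ℝ))

variable {Ω : Type*} [MeasurableSpace Ω]

/-- The geometric mean `exp ∫ log φ`. -/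
noncomputable def gm (P : Measure Ω) (φ : Ω → ℝ) : ℝ := Real.exp (∫ ω, Real.log (φ ω) ∂P)

/-- The set of the positive `A`-measurable functions `φ` with `log φ` in `L¹(P)`. -/
def GSet {Ω : Type*} (A : MeasurableSpace Ω) [MeasurableSpace Ω] (P : Measure Ω) :
    Set (Ω → ℝ) :=
  {φ | Measurable[A] φ ∧ (∀ ω, 0 < φ ω) ∧ Integrable (fun ω => Real.log (φ ω)) P}

/-- The scaling mean of `f ≥ 0` with respect to two sub-σ-algebras: the infimum of
`(gm g₁ * gm g₂)⁻¹ ∫ g₁ f g₂` over `g₁` in `GSet A₁ P` and `g₂` in `GSet A₂ P`. -/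
noncomputable def smean {Ω : Type*} (A₁ A₂ : MeasurableSpace Ω) [MeasurableSpace Ω]
    (P : Measure Ω) (f : Ω → ℝ) : ℝ≥0∞ :=
  ⨅ g₁ ∈ GSet A₁ P, ⨅ g₂ ∈ GSet A₂ P,
    (∫⁻ ω, ENNReal.ofReal (g₁ ω * f ω * g₂ ω) ∂P) / ENNReal.ofReal (gm P g₁ * gm P g₂)

/-- The `n × n` matrix `f (T^(i,j) ω)`, `0 ≤ i, j < n`, for the action
`T^(i,j) = S ^ i ∘ T ^ j` of `ℕ²`. -/
def sample (S T : Ω → Ω) (f : Ω → ℝ) (n : ℕ) (ω : Ω) : Matrix (Fin n) (Fin n) ℝ :=
  Matrix.of fun i j => f (S^[i] (T^[j] ω))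

end Pool.Agent.K4H40.LLP
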