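import Mathlib

/-!
# Permanents: expansions and a Bregman-type upper bound
-/

set_option autoImplicit false

namespace Pool.Agent.K4H40.Per

open Finset Matrix

theorem per_col_zero {R : Type*} [CommSemiring R] {n : ℕ} (A : Matrix (Fin (n + 1)) (Fin (n + 1)) R) :
    A.permanent = ∑ i : Fin (n + 1), A i 0 * (A.submatrix i.succAbove Fin.succ).permanent := by
  unfold Matrix.permanent
  rw [Finset.univ_perm_fin_succ, ← Finset.univ_product_univ]
  simp only [Finset.sum_map, Equiv.toEmbedding_apply, Finset.sum_product, Matrix.submatrix,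
    Matrix.of_apply]
  refine Finset.sum_congr rfl fun i _ => Fin.cases ?_ (fun i => ?_) i
  · simp only [Fin.prod_univ_succ, Finset.mul_sum,
      Equiv.Perm.decomposeFin_symm_apply_zero, Equiv.swap_self, Equiv.refl_apply,
      Equiv.Perm.decomposeFin_symm_apply_succ, Fin.succAbove_zero]
  · rw [Finset.mul_sum]
    have hbij := (Group.mulLeft_bijective (i.cycleRange)).sum_comp
      (fun τ : Equiv.Perm (Fin n) => A i.succ 0 * ∏ j, A (i.succ.succAbove (τ j)) j.succ)
    rw [← hbij]
    refine Finset.sum_congr rfl fun σ _ => ?_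
    simp only [Fin.prod_univ_succ, Equiv.Perm.coe_mul, Function.comp_apply,
      Fin.succAbove_cycleRange, Equiv.Perm.decomposeFin_symm_apply_zero,
      Equiv.Perm.decomposeFin_symm_apply_succ]

theorem per_col {R : Type*} [CommSemiring R] {n : ℕ} (A : Matrix (Fin (n + 1)) (Fin (n + 1)) R)
    (j : Fin (n + 1)) :
    A.permanent = ∑ i : Fin (n + 1), A i j * (A.submatrix i.succAbove j.succAbove).permanent := by
  rw [← Matrix.permanent_permute_rows j.cycleRange.symm A, per_col_zero]
  refine Finset.sum_congr rfl fun i _ => ?_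
  congr 1
  · simp [Matrix.submatrix, Fin.cycleRange_symm_zero]
  · congr 1
    ext a b
    simp [Matrix.submatrix, Fin.cycleRange_symm_succ]

theorem per_row {R : Type*} [CommSemiring R] {n : ℕ} (A : Matrix (Fin (n + 1)) (Fin (n + 1)) R)
    (i : Fin (n + 1)) :
    A.permanent = ∑ j : Fin (n + 1), A i j * (A.submatrix i.succAbove j.succAbove).permanent := by
  rw [← Matrix.permanent_transpose, per_col Aᵀ i]
  refine Finset.sum_congr rfl fun j _ => ?_
  rw [Matrix.transpose_apply, ← Matrix.permanent_transpose, Matrix.transpose_submatrix,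
    Matrix.transpose_transpose]

theorem per_pos {n : ℕ} {A : Matrix (Fin n) (Fin n) ℝ} (hA : ∀ i j, 0 < A i j) :
    0 < A.permanent :=
  Finset.sum_pos (fun σ _ => Finset.prod_pos fun i _ => hA _ _) Finset.univ_nonempty

/-- The sum of logarithms in the upper bound. -/
noncomputable def LS (C : ℝ) (n : ℕ) (r : ℝ) : ℝ :=
  ∑ m ∈ range n, Real.log (C + m * ((r - C) / ((n : ℝ) - 1)))

theorem LS_succ (C : ℝ) (M : ℕ) (hM : 0 < M) (r : ℝ) :
    LS C (M + 1) r = Real.log r + ∑ m ∈ range M, Real.log (C + m * ((r - C) / (M : ℝ))) := by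
  have hM' : (M : ℝ) ≠ 0 := by positivity
  unfold LS
  rw [Finset.sum_range_succ, add_comm]
  have h1 : ((M + 1 : ℕ) : ℝ) - 1 = M := by push_cast; ring
  rw [h1]
  congr 2
  field_simp
  ring

/-- Jensen's inequality for the logarithm with weights of total mass `M`. -/
theorem jensen_log {ι : Type*} (s : Finset ι) (w x : ι → ℝ) (M : ℝ) (hM : 0 < M)
    (hw : ∀ i ∈ s, 0 ≤ w i) (hs : ∑ i ∈ s, w i = M) (hx : ∀ i ∈ s, 0 < x i) :
    ∑ i ∈ s, w i * Real.log (x i) ≤ M * Real.log ((∑ i ∈ s, w i * x i) / M) := by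
  have h := strictConcaveOn_log_Ioi.concaveOn.le_map_sum (t := s) (w := fun i => w i / M) (p := x)
    (fun i hi => div_nonneg (hw i hi) hM.le)
    (by rw [← Finset.sum_div, hs, div_self hM.ne']) (fun i hi => hx i hi)
  simp only [smul_eq_mul] at h
  have h1 : ∑ i ∈ s, w i / M * Real.log (x i) = (∑ i ∈ s, w i * Real.log (x i)) / M := by
    rw [Finset.sum_div]
    exact Finset.sum_congr rfl fun i _ => by ring
  have h2 : ∑ i ∈ s, w i / M * x i = (∑ i ∈ s, w i * x i) / M := by
    rw [Finset.sum_div]
    exact Finset.sum_congr rfl fun i _ => by ring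
  rw [h1, h2, div_le_iff₀ hM] at h
  linarith

/-- the concavity step -/
theorem LS_step {M : ℕ} (hM : 0 < M) {C : ℝ} (hC : 0 < C) (p a : Fin (M + 1) → ℝ)
    (hp0 : ∀ j, 0 ≤ p j) (hp : ∑ j, p j = 1) (ha : ∀ j, 0 < a j) (haC : ∀ j, a j ≤ C) :
    ∑ j, (1 - p j) * LS C M (∑ k, a k - a j) ≤
      M * ∑ m ∈ range M, Real.log (C + m * ((∑ k, a k - C) / (M : ℝ))) := by
  have hMR : (0 : ℝ) < M := by exact_mod_cast hM
  set r := ∑ k, a k with hr
  have hp1 : ∀ j, p j ≤ 1 := fun j => by
    rw [← hp]
    exact Finset.single_le_sum (fun i _ => hp0 i) (Finset.mem_univ j)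
  have hw : ∑ j : Fin (M + 1), (1 - p j) = M := by
    rw [Finset.sum_sub_distrib, hp]
    simp
  have hra : ∀ j, 0 < r - a j := by
    intro j
    have h1 : a j < ∑ k, a k := by
      obtain ⟨k, hk⟩ : ∃ k : Fin (M + 1), k ≠ j := by
        have : Nontrivial (Fin (M + 1)) := Fin.nontrivial_iff_two_le.2 (by omega)
        exact exists_ne j
      exact Finset.single_lt_sum hk (Finset.mem_univ j) (Finset.mem_univ k) (ha k)
        (fun k _ _ => (ha k).le)
    rw [hr]
    linarith
  unfold LS
  have h1 : ∑ j, (1 - p j) * ∑ m ∈ range M, Real.log (C + m * ((r - a j - C) / ((M : ℝ) - 1))) =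
      ∑ m ∈ range M, ∑ j, (1 - p j) * Real.log (C + m * ((r - a j - C) / ((M : ℝ) - 1))) := by
    rw [Finset.sum_comm]
    exact Finset.sum_congr rfl fun j _ => by rw [Finset.mul_sum]
  rw [h1, Finset.mul_sum]
  refine Finset.sum_le_sum fun m hm => ?_
  rw [Finset.mem_range] at hm
  rcases Nat.eq_zero_or_pos m with hm0 | hm0
  · subst hm0
    simp only [Nat.cast_zero, zero_mul, add_zero]
    rw [← Finset.sum_mul, hw]
  have hM1 : (0 : ℝ) < (M : ℝ) - 1 := by
    have : (1 : ℝ) < M := by exact_mod_cast (by omega : 1 < M)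
    linarith
  have hmM : (m : ℝ) ≤ (M : ℝ) - 1 := by
    have : ((m + 1 : ℕ) : ℝ) ≤ M := by exact_mod_cast hm
    push_cast at this
    linarith
  have hm0' : (0 : ℝ) < m := by exact_mod_cast hm0
  have hpos : ∀ j, 0 < C + m * ((r - a j - C) / ((M : ℝ) - 1)) := by
    intro j
    have h2 : C + m * ((r - a j - C) / ((M : ℝ) - 1)) =
        C * (1 - m / ((M : ℝ) - 1)) + m * (r - a j) / ((M : ℝ) - 1) := by
      field_simp
      ring
    rw [h2]
    have h3 : 0 ≤ C * (1 - m / ((M : ℝ) - 1)) := by
      apply mul_nonneg hC.le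
      rw [sub_nonneg, div_le_one hM1]
      exact hmM
    have h4 : 0 < m * (r - a j) / ((M : ℝ) - 1) := div_pos (mul_pos hm0' (hra j)) hM1
    linarith
  refine (jensen_log Finset.univ (fun j => 1 - p j) _ M hMR (fun j _ => by
    have := hp1 j
    linarith) hw (fun j _ => hpos j)).trans ?_
  apply mul_le_mul_of_nonneg_left _ hMR.le
  apply Real.log_le_log
  · apply div_pos _ hMR
    apply Finset.sum_pos' (fun j _ => mul_nonneg (by linarith [hp1 j]) (hpos j).le)
    by_contra hcon
    push Not at hcon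
    have h5 : ∀ j, 1 - p j = 0 := by
      intro j
      have h6 := hcon j (Finset.mem_univ j)
      by_contra h7
      have h8 : 0 < 1 - p j := lt_of_le_of_ne (by linarith [hp1 j]) (Ne.symm h7)
      exact absurd h6 (not_le.2 (mul_pos h8 (hpos j)))
    rw [Finset.sum_eq_zero fun j _ => h5 j] at hw
    linarith
  · rw [div_le_iff₀ hMR]
    have h2 : ∑ j, (1 - p j) * (C + m * ((r - a j - C) / ((M : ℝ) - 1))) =
        M * C + m / ((M : ℝ) - 1) * (M * r - M * C - (r - ∑ j, p j * a j)) := by
      have h3 : ∀ j, (1 - p j) * (C + m * ((r - a j - C) / ((M : ℝ) - 1))) =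
          (1 - p j) * (C + m / ((M : ℝ) - 1) * (r - C)) -
            m / ((M : ℝ) - 1) * (a j - p j * a j) := by
        intro j
        ring
      rw [Finset.sum_congr rfl fun j _ => h3 j, Finset.sum_sub_distrib, ← Finset.sum_mul, hw,
        ← Finset.mul_sum, Finset.sum_sub_distrib, ← hr]
      ring
    rw [h2]
    have h3 : ∑ j, p j * a j ≤ C := by
      calc ∑ j, p j * a j ≤ ∑ j, p j * C :=
            Finset.sum_le_sum fun j _ => mul_le_mul_of_nonneg_left (haC j) (hp0 j)
        _ = C := by rw [← Finset.sum_mul, hp, one_mul]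
    have h4 : (C + m * ((r - C) / (M : ℝ))) * M = M * C + m / ((M : ℝ) - 1) * (((M : ℝ) - 1) * (r - C)) := by
      field_simp
    rw [h4]
    have h5 : 0 ≤ (m : ℝ) / ((M : ℝ) - 1) := div_nonneg hm0'.le hM1.le
    have h6 : M * r - M * C - (r - ∑ j, p j * a j) ≤ ((M : ℝ) - 1) * (r - C) := by
      nlinarith
    have := mul_le_mul_of_nonneg_left h6 h5
    linarith

/-- the induction step of the upper bound -/
theorem log_per_step {C : ℝ} (hC : 0 < C) {M : ℕ} (hM0 : 0 < M)
    (ih : ∀ B : Matrix (Fin M) (Fin M) ℝ, (∀ i j, 0 < B i j) → (∀ i j, B i j ≤ C) →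
      (M : ℝ) * Real.log B.permanent ≤ ∑ i, LS C M (∑ j, B i j))
    (A : Matrix (Fin (M + 1)) (Fin (M + 1)) ℝ) (hA : ∀ i j, 0 < A i j) (hAC : ∀ i j, A i j ≤ C) :
    (M + 1 : ℝ) * Real.log A.permanent ≤ ∑ i, LS C (M + 1) (∑ j, A i j) := by
  have hMR : (0 : ℝ) < M := by exact_mod_cast hM0
  have hper := per_pos hA
  let Q : Fin (M + 1) → Fin (M + 1) → ℝ := fun i j =>
    (A.submatrix i.succAbove j.succAbove).permanent
  have hQ : ∀ i j, 0 < Q i j := fun i j => per_pos fun a b => hA _ _
  let p : Fin (M + 1) → Fin (M + 1) → ℝ := fun i j => A i j * Q i j / A.permanent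
  have hp : ∀ i j, 0 < p i j := fun i j => div_pos (mul_pos (hA i j) (hQ i j)) hper
  have hrow : ∀ i, ∑ j, p i j = 1 := by
    intro i
    simp only [p]
    rw [← Finset.sum_div, ← per_row A i, div_self hper.ne']
  have hcol : ∀ j, ∑ i, p i j = 1 := by
    intro j
    simp only [p]
    rw [← Finset.sum_div, ← per_col A j, div_self hper.ne']
  set r : Fin (M + 1) → ℝ := fun i => ∑ j, A i j with hr
  -- Gibbs' inequality
  have hG : ∀ i, Real.log A.permanent ≤ Real.log (r i) + ∑ j, p i j * Real.log (Q i j) := by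
    intro i
    have h1 : ∀ j, p i j * Real.log A.permanent =
        p i j * Real.log (A i j / p i j) + p i j * Real.log (Q i j) := by
      intro j
      have h2 : A.permanent = A i j / p i j * Q i j := by
        simp only [p]
        have := (hA i j).ne'
        have := (hQ i j).ne'
        field_simp
      rw [← mul_add, ← Real.log_mul (div_pos (hA i j) (hp i j)).ne' (hQ i j).ne', ← h2]
    have h2 : Real.log A.permanent = ∑ j, p i j * Real.log A.permanent := by
      rw [← Finset.sum_mul, hrow, one_mul]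
    rw [h2, Finset.sum_congr rfl fun j _ => h1 j, Finset.sum_add_distrib]
    have h3 := jensen_log Finset.univ (p i) (fun j => A i j / p i j) 1 one_pos
      (fun j _ => (hp i j).le) (hrow i) (fun j _ => div_pos (hA i j) (hp i j))
    have h4 : ∑ j, p i j * (A i j / p i j) = r i :=
      Finset.sum_congr rfl fun j _ => by
        have := (hp i j).ne'
        field_simp
    rw [h4, div_one, one_mul] at h3
    linarith
  -- induction hypothesis
  have hI : ∀ i j, (M : ℝ) * Real.log (Q i j) ≤
      ∑ k : Fin M, LS C M (r (i.succAbove k) - A (i.succAbove k) j) := by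
    intro i j
    have h1 := ih (A.submatrix i.succAbove j.succAbove) (fun a b => hA _ _) (fun a b => hAC _ _)
    refine h1.trans (le_of_eq ?_)
    refine Finset.sum_congr rfl fun k _ => ?_
    congr 1
    simp only [Matrix.submatrix_apply, hr]
    rw [Fin.sum_univ_succAbove _ j]
    ring
  have hsum : (M + 1 : ℝ) * (M * Real.log A.permanent) ≤
      M * ∑ i, Real.log (r i) + ∑ i, ∑ j, p i j * ∑ k : Fin M,
        LS C M (r (i.succAbove k) - A (i.succAbove k) j) := by
    have h1 : ∀ i : Fin (M + 1), M * Real.log A.permanent ≤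
        M * Real.log (r i) + ∑ j, p i j * ∑ k : Fin M,
          LS C M (r (i.succAbove k) - A (i.succAbove k) j) := by
      intro i
      have h2 := mul_le_mul_of_nonneg_left (hG i) hMR.le
      refine h2.trans ?_
      rw [mul_add, Finset.mul_sum]
      refine add_le_add le_rfl (Finset.sum_le_sum fun j _ => ?_)
      calc (M : ℝ) * (p i j * Real.log (Q i j)) = p i j * (M * Real.log (Q i j)) := by ring
        _ ≤ _ := mul_le_mul_of_nonneg_left (hI i j) (hp i j).le
    have h2 := Finset.sum_le_sum fun i (_ : i ∈ (Finset.univ : Finset (Fin (M + 1)))) => h1 i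
    rw [Finset.sum_const, Finset.card_univ, Fintype.card_fin, nsmul_eq_mul,
      Finset.sum_add_distrib, ← Finset.mul_sum] at h2
    push_cast at h2 ⊢
    exact h2
  have hre : ∑ i, ∑ j, p i j * ∑ k : Fin M, LS C M (r (i.succAbove k) - A (i.succAbove k) j) =
      ∑ k, ∑ j, (1 - p k j) * LS C M (r k - A k j) := by
    have h1 : ∀ i j, ∑ k : Fin M, LS C M (r (i.succAbove k) - A (i.succAbove k) j) =
        ∑ k, LS C M (r k - A k j) - LS C M (r i - A i j) := by
      intro i j
      rw [Fin.sum_univ_succAbove _ i]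
      ring
    calc ∑ i, ∑ j, p i j * ∑ k : Fin M, LS C M (r (i.succAbove k) - A (i.succAbove k) j)
        = ∑ i, ∑ j, (p i j * ∑ k, LS C M (r k - A k j) - p i j * LS C M (r i - A i j)) := by
          refine Finset.sum_congr rfl fun i _ => Finset.sum_congr rfl fun j _ => ?_
          rw [h1]
          ring
      _ = ∑ i, ∑ j, p i j * ∑ k, LS C M (r k - A k j) -
          ∑ i, ∑ j, p i j * LS C M (r i - A i j) := by
          simp only [Finset.sum_sub_distrib]
      _ = ∑ j, ∑ k, LS C M (r k - A k j) - ∑ i, ∑ j, p i j * LS C M (r i - A i j) := by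
          congr 1
          rw [Finset.sum_comm]
          refine Finset.sum_congr rfl fun j _ => ?_
          rw [← Finset.sum_mul, hcol, one_mul]
      _ = ∑ k, ∑ j, (1 - p k j) * LS C M (r k - A k j) := by
          rw [Finset.sum_comm, ← Finset.sum_sub_distrib]
          refine Finset.sum_congr rfl fun k _ => ?_
          rw [← Finset.sum_sub_distrib]
          exact Finset.sum_congr rfl fun j _ => by ring
  have hstep : ∀ k, ∑ j, (1 - p k j) * LS C M (r k - A k j) ≤
      M * (LS C (M + 1) (r k) - Real.log (r k)) := by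
    intro k
    rw [LS_succ C M hM0]
    have := LS_step hM0 hC (p k) (A k) (fun j => (hp k j).le) (hrow k) (hA k) (hAC k)
    simpa [hr] using this
  have hfin : (M + 1 : ℝ) * (M * Real.log A.permanent) ≤ M * ∑ i, LS C (M + 1) (r i) := by
    refine hsum.trans ?_
    rw [hre]
    have h1 := Finset.sum_le_sum fun k (_ : k ∈ (Finset.univ : Finset (Fin (M + 1)))) => hstep k
    rw [← Finset.mul_sum, Finset.sum_sub_distrib, mul_sub] at h1
    linarith
  have h2 : (M : ℝ) * ((M + 1 : ℝ) * Real.log A.permanent) ≤ M * ∑ i, LS C (M + 1) (r i) := by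
    linarith
  have h3 := le_of_mul_le_mul_left h2 hMR
  exact h3


/-- **A Bregman-type upper bound** for the permanent of a matrix with entries in `(0, C]`. -/
theorem log_per_le {C : ℝ} (hC : 0 < C) : ∀ (n : ℕ), 0 < n → ∀ (A : Matrix (Fin n) (Fin n) ℝ),
    (∀ i j, 0 < A i j) → (∀ i j, A i j ≤ C) →
    (n : ℝ) * Real.log A.permanent ≤ ∑ i, LS C n (∑ j, A i j) := by
  intro n hn
  induction n, hn using Nat.le_induction with
  | base =>
    intro A hA hAC
    have h1 : A.permanent = A 0 0 := by simp [Matrix.permanent]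
    rw [h1]
    have h2 : ∀ r, LS C (Nat.succ 0) r = Real.log C := fun r => by
      simp [LS]
    rw [Finset.sum_congr rfl fun i _ => h2 _, Finset.sum_const, Finset.card_univ,
      Fintype.card_fin]
    simpa using Real.log_le_log (hA 0 0) (hAC 0 0)
  | succ n hn ih =>
    intro A hA hAC
    have := log_per_step hC hn ih A hA hAC
    push_cast
    exact this

end Pool.Agent.K4H40.Per
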