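import Pool.Agent.K4H40.Per1
import Pool.Agent.H450R3.FgVdw3

/-!
# Permanents of matrices with bounded entries: the two asymptotic bounds
-/

set_option autoImplicit false

namespace Pool.Agent.K4H40.Per

open Finset Matrix

theorem sum_log_add {K : ℕ} (hK : 1 ≤ K) (n : ℕ) (hn : 1 ≤ n) :
    ∑ m ∈ range n, Real.log ((m : ℝ) + K) ≤
      Real.log (n.factorial : ℝ) + ((K : ℝ) - 1) * (1 + Real.log n) := by
  have h1 : ∀ m ∈ range n, Real.log ((m : ℝ) + K) ≤
      Real.log ((m : ℝ) + 1) + ((K : ℝ) - 1) * ((m : ℝ) + 1)⁻¹ := by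
    intro m _
    have hm : (0 : ℝ) < (m : ℝ) + 1 := by positivity
    have hK' : (1 : ℝ) ≤ K := by exact_mod_cast hK
    have h2 : ((m : ℝ) + K) = ((m : ℝ) + 1) * (1 + ((K : ℝ) - 1) * ((m : ℝ) + 1)⁻¹) := by
      field_simp
      ring
    have h3 : 0 < 1 + ((K : ℝ) - 1) * ((m : ℝ) + 1)⁻¹ := by
      have : 0 ≤ ((K : ℝ) - 1) * ((m : ℝ) + 1)⁻¹ := mul_nonneg (by linarith) (inv_nonneg.2 hm.le)
      linarith
    rw [h2, Real.log_mul hm.ne' h3.ne']
    have := Real.log_le_sub_one_of_pos h3
    linarith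
  refine (Finset.sum_le_sum h1).trans ?_
  rw [Finset.sum_add_distrib, ← Finset.mul_sum]
  have h4 : ∑ m ∈ range n, Real.log ((m : ℝ) + 1) = Real.log (n.factorial : ℝ) := by
    rw [← Finset.prod_range_add_one_eq_factorial]
    push_cast
    rw [Real.log_prod]
    intro i _
    positivity
  have h5 : ∑ m ∈ range n, ((m : ℝ) + 1)⁻¹ ≤ 1 + Real.log n := by
    have := harmonic_le_one_add_log n
    rw [harmonic] at this
    push_cast at this
    exact this
  rw [h4]
  have hK' : (0 : ℝ) ≤ (K : ℝ) - 1 := by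
    have : (1 : ℝ) ≤ K := by exact_mod_cast hK
    linarith
  have := mul_le_mul_of_nonneg_left h5 hK'
  linarith

theorem LS_le {c C : ℝ} (hc : 0 < c) {K : ℕ} (hK : 1 ≤ K) (hC : 0 < C) (hCK : C ≤ K * c) {n : ℕ}
    (hn : 2 ≤ n) {r : ℝ} (hr : n * c ≤ r) :
    LS C n r ≤ n * Real.log (r / ((n : ℝ) - 1)) +
      (Real.log (n.factorial : ℝ) + ((K : ℝ) - 1) * (1 + Real.log n)) := by
  have hn' : (2 : ℝ) ≤ n := by exact_mod_cast hn
  have hn1 : (0 : ℝ) < (n : ℝ) - 1 := by linarith
  have hr0 : 0 < r := lt_of_lt_of_le (by positivity) hr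
  have hK' : (1 : ℝ) ≤ K := by exact_mod_cast hK
  refine le_trans ?_ (add_le_add le_rfl (sum_log_add hK n (by omega)))
  have h1 : (n : ℝ) * Real.log (r / ((n : ℝ) - 1)) =
      ∑ m ∈ range n, Real.log (r / ((n : ℝ) - 1)) := by
    rw [Finset.sum_const, Finset.card_range, nsmul_eq_mul]
  rw [h1, ← Finset.sum_add_distrib]
  unfold LS
  refine Finset.sum_le_sum fun m hm => ?_
  have hm0 : (0 : ℝ) ≤ m := Nat.cast_nonneg m
  have hmn : (m : ℝ) ≤ (n : ℝ) - 1 := by
    have : m + 1 ≤ n := Finset.mem_range.1 hm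
    have : ((m + 1 : ℕ) : ℝ) ≤ n := by exact_mod_cast this
    push_cast at this
    linarith
  rw [← Real.log_mul (by positivity) (by positivity)]
  apply Real.log_le_log
  · have h2 : C + m * ((r - C) / ((n : ℝ) - 1)) =
        C * (1 - m / ((n : ℝ) - 1)) + m * r / ((n : ℝ) - 1) := by
      field_simp
      ring
    rw [h2]
    have h3 : 0 ≤ 1 - m / ((n : ℝ) - 1) := by
      rw [sub_nonneg, div_le_one hn1]
      exact hmn
    rcases hm0.eq_or_lt with h0 | h0
    · rw [← h0]
      simp only [zero_div, sub_zero, mul_one, zero_mul, add_zero]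
      exact hC
    · have h4 : 0 < m * r / ((n : ℝ) - 1) := by positivity
      have h5 := mul_nonneg hC.le h3
      linarith
  · have h2 : C ≤ r / ((n : ℝ) - 1) * K := by
      have h3 : c ≤ r / ((n : ℝ) - 1) := by
        rw [le_div_iff₀ hn1]
        nlinarith
      calc C ≤ K * c := hCK
        _ ≤ K * (r / ((n : ℝ) - 1)) := mul_le_mul_of_nonneg_left h3 (by positivity)
        _ = _ := by ring
    have h3 : m * ((r - C) / ((n : ℝ) - 1)) ≤ r / ((n : ℝ) - 1) * m := by
      have : (r - C) / ((n : ℝ) - 1) ≤ r / ((n : ℝ) - 1) := by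
        apply div_le_div_of_nonneg_right _ hn1.le
        linarith
      calc (m : ℝ) * ((r - C) / ((n : ℝ) - 1)) ≤ m * (r / ((n : ℝ) - 1)) :=
            mul_le_mul_of_nonneg_left this hm0
        _ = _ := by ring
    rw [mul_add]
    linarith

/-- **Upper bound.** -/
theorem log_per_div_le {c C : ℝ} (hc : 0 < c) {K : ℕ} (hK : 1 ≤ K) (hC : 0 < C) (hCK : C ≤ K * c)
    {n : ℕ} (hn : 2 ≤ n) (A : Matrix (Fin n) (Fin n) ℝ) (h1 : ∀ i j, c ≤ A i j)
    (h2 : ∀ i j, A i j ≤ C) :
    Real.log (A.permanent / n.factorial) ≤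
      n * Real.log ((∑ i, ∑ j, A i j) / (n * ((n : ℝ) - 1))) +
        ((K : ℝ) - 1) * (1 + Real.log n) := by
  have hn' : (2 : ℝ) ≤ n := by exact_mod_cast hn
  have hn0 : (0 : ℝ) < n := by linarith
  have hn1 : (0 : ℝ) < (n : ℝ) - 1 := by linarith
  have hA : ∀ i j, 0 < A i j := fun i j => hc.trans_le (h1 i j)
  have hr : ∀ i, n * c ≤ ∑ j, A i j := by
    intro i
    calc n * c = ∑ j : Fin n, c := by simp
      _ ≤ _ := Finset.sum_le_sum fun j _ => h1 i j
  have hr0 : ∀ i, 0 < ∑ j, A i j := fun i => lt_of_lt_of_le (by positivity) (hr i)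
  have h3 := log_per_le hC n (by omega) A hA h2
  have h4 : ∑ i, LS C n (∑ j, A i j) ≤ ∑ i : Fin n, (n * Real.log ((∑ j, A i j) / ((n : ℝ) - 1)) +
      (Real.log (n.factorial : ℝ) + ((K : ℝ) - 1) * (1 + Real.log n))) :=
    Finset.sum_le_sum fun i _ => LS_le hc hK hC hCK hn (hr i)
  rw [Finset.sum_add_distrib, ← Finset.mul_sum, Finset.sum_const, Finset.card_univ,
    Fintype.card_fin, nsmul_eq_mul, ← mul_add] at h4
  have h5 := le_of_mul_le_mul_left (h3.trans h4) hn0
  have h6 := jensen_log (Finset.univ : Finset (Fin n)) (fun _ => 1)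
    (fun i => (∑ j, A i j) / ((n : ℝ) - 1)) n hn0 (fun _ _ => zero_le_one) (by simp)
    (fun i _ => div_pos (hr0 i) hn1)
  simp only [one_mul] at h6
  have h7 : (∑ i, (∑ j, A i j) / ((n : ℝ) - 1)) / n = (∑ i, ∑ j, A i j) / (n * ((n : ℝ) - 1)) := by
    rw [← Finset.sum_div, div_div]
    congr 1
    ring
  rw [h7] at h6
  rw [Real.log_div (per_pos hA).ne' (by positivity)]
  linarith

/-- **Sinkhorn scaling** of a positive matrix. -/
theorem sinkhorn {n : ℕ} (hn : 0 < n) (A : Matrix (Fin n) (Fin n) ℝ) {c : ℝ} (hc : 0 < c)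
    (hA : ∀ i j, c ≤ A i j) : ∃ x y : Fin n → ℝ, (∀ i, 0 < x i) ∧ (∀ j, 0 < y j) ∧
      (∀ i, ∑ j, x i * A i j * y j = 1) ∧ ∀ j, ∑ i, x i * A i j * y j = 1 := by
  have hn0 : (0 : ℝ) < n := by exact_mod_cast hn
  have hn1 : (1 : ℝ) ≤ n := by exact_mod_cast hn
  have hne : Nonempty (Fin n) := ⟨⟨0, hn⟩⟩
  have hA0 : ∀ i j, 0 < A i j := fun i j => hc.trans_le (hA i j)
  let R : (Fin n → ℝ) → Fin n → ℝ := fun t i => ∑ j, A i j * Real.exp (t j)
  have hR : ∀ t i, 0 < R t i := fun t i =>
    Finset.sum_pos (fun j _ => mul_pos (hA0 i j) (Real.exp_pos _)) Finset.univ_nonempty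
  let F : (Fin n → ℝ) → ℝ := fun t => ∑ i, Real.log (R t i) - ∑ j, t j + (∑ j, t j) ^ 2
  have hcont : Continuous F := by
    have h1 : ∀ i, Continuous fun t => R t i := fun i => by
      show Continuous fun t : Fin n → ℝ => ∑ j, A i j * Real.exp (t j)
      fun_prop
    have h2 : Continuous fun t => ∑ i, Real.log (R t i) :=
      continuous_finsetSum _ fun i _ => (h1 i).log fun t => (hR t i).ne'
    show Continuous fun t => ∑ i, Real.log (R t i) - ∑ j, t j + (∑ j, t j) ^ 2
    fun_prop
  have hlow : ∀ t j, n * Real.log c + n * t j - ∑ k, t k + (∑ k, t k) ^ 2 ≤ F t := by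
    intro t j
    have h1 : ∀ i, Real.log c + t j ≤ Real.log (R t i) := by
      intro i
      rw [← Real.log_exp (t j), ← Real.log_mul hc.ne' (Real.exp_pos _).ne']
      apply Real.log_le_log (mul_pos hc (Real.exp_pos _))
      calc c * Real.exp (t j) ≤ A i j * Real.exp (t j) :=
            mul_le_mul_of_nonneg_right (hA i j) (Real.exp_pos _).le
        _ ≤ R t i := Finset.single_le_sum (f := fun j => A i j * Real.exp (t j))
            (fun k _ => (mul_pos (hA0 i k) (Real.exp_pos _)).le) (Finset.mem_univ j)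
    have h2 : n * (Real.log c + t j) ≤ ∑ i, Real.log (R t i) := by
      calc n * (Real.log c + t j) = ∑ i : Fin n, (Real.log c + t j) := by
            rw [Finset.sum_const, Finset.card_univ, Fintype.card_fin, nsmul_eq_mul]
        _ ≤ _ := Finset.sum_le_sum fun i _ => h1 i
    show _ ≤ ∑ i, Real.log (R t i) - ∑ j, t j + (∑ j, t j) ^ 2
    linarith
  have hnorm : ∀ t, ‖t‖ ≤ F t - n * Real.log c + 1 := by
    intro t
    set s := ∑ k, t k with hs
    obtain ⟨j0, hj0⟩ := Finite.exists_max t
    have hb := hlow t j0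
    rw [← hs] at hb
    have hsle : s ≤ n * t j0 := by
      calc s ≤ ∑ k : Fin n, t j0 := Finset.sum_le_sum fun k _ => hj0 k
        _ = _ := by simp
    have hsq : |s| - 1 ≤ s ^ 2 - s := by
      rcases abs_cases s with ⟨h, h'⟩ | ⟨h, h'⟩
      · rw [h]; nlinarith [sq_nonneg (s - 1)]
      · rw [h]; nlinarith [sq_nonneg s]
    have hsq2 : |s| - 1 ≤ s ^ 2 := by
      rcases abs_cases s with ⟨h, h'⟩ | ⟨h, h'⟩
      · rw [h]; nlinarith [sq_nonneg (s - 1)]
      · rw [h]; nlinarith [sq_nonneg (s + 1)]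
    have hs0 := abs_nonneg s
    have hsa := le_abs_self s
    have hsb := neg_abs_le s
    have hF0 : 0 ≤ F t - n * Real.log c + 1 := by linarith
    rw [pi_norm_le_iff_of_nonneg hF0]
    intro j
    rw [Real.norm_eq_abs, abs_le]
    constructor
    · -- lower bound of `t j`
      have h1 : s - t j ≤ ((n : ℝ) - 1) * t j0 := by
        have h2 : s = t j + ∑ k ∈ Finset.univ.erase j, t k := by
          rw [hs, Finset.add_sum_erase _ _ (Finset.mem_univ j)]
        have h3 : ∑ k ∈ Finset.univ.erase j, t k ≤ ∑ k ∈ (Finset.univ.erase j : Finset (Fin n)), t j0 :=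
          Finset.sum_le_sum fun k _ => hj0 k
        rw [Finset.sum_const, Finset.card_erase_of_mem (Finset.mem_univ j), Finset.card_univ,
          Fintype.card_fin, nsmul_eq_mul, Nat.cast_sub (by omega : 1 ≤ n), Nat.cast_one] at h3
        linarith
      rcases le_total 0 (t j0) with h0 | h0
      · nlinarith
      · nlinarith
    · have h2 := hj0 j
      rcases le_total 0 (t j0) with h0 | h0
      · nlinarith
      · linarith
  have htend : Filter.Tendsto F (Filter.cocompact _) Filter.atTop := by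
    have h1 : ∀ t, ‖t‖ + (n * Real.log c - 1) ≤ F t := fun t => by linarith [hnorm t]
    exact Filter.tendsto_atTop_mono h1
      (Filter.tendsto_atTop_add_const_right _ _ (tendsto_norm_cocompact_atTop))
  obtain ⟨t, ht⟩ := hcont.exists_forall_le htend
  set s := ∑ k, t k with hs
  have hder : ∀ j, ∑ i, A i j * Real.exp (t j) / R t i - 1 + 2 * s = 0 := by
    intro j
    let G : ℝ → ℝ := fun u =>
      ∑ i, Real.log (R t i + A i j * Real.exp (t j) * (Real.exp u - 1)) - (s + u) + (s + u) ^ 2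
    have hGF : ∀ u, G u = F (Function.update t j (t j + u)) := by
      intro u
      have h1 : ∀ i, R (Function.update t j (t j + u)) i =
          R t i + A i j * Real.exp (t j) * (Real.exp u - 1) := by
        intro i
        show ∑ k, A i k * Real.exp (Function.update t j (t j + u) k) = _
        have h2 : ∀ k, A i k * Real.exp (Function.update t j (t j + u) k) =
            A i k * Real.exp (t k) +
              if k = j then A i j * Real.exp (t j) * (Real.exp u - 1) else 0 := by
          intro k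
          by_cases hk : k = j
          · subst hk
            rw [Function.update_self, if_pos rfl, Real.exp_add]
            ring
          · rw [Function.update_of_ne hk, if_neg hk, add_zero]
        rw [Finset.sum_congr rfl fun k _ => h2 k, Finset.sum_add_distrib,
          Finset.sum_ite_eq' Finset.univ j, if_pos (Finset.mem_univ j)]
      have h3 : ∑ k, Function.update t j (t j + u) k = s + u := by
        have h4 : ∀ k, Function.update t j (t j + u) k = t k + if k = j then u else 0 := by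
          intro k
          by_cases hk : k = j
          · subst hk
            rw [Function.update_self, if_pos rfl]
          · rw [Function.update_of_ne hk, if_neg hk, add_zero]
        rw [Finset.sum_congr rfl fun k _ => h4 k, Finset.sum_add_distrib,
          Finset.sum_ite_eq' Finset.univ j, if_pos (Finset.mem_univ j)]
      show ∑ i, Real.log (R t i + A i j * Real.exp (t j) * (Real.exp u - 1)) - (s + u) +
        (s + u) ^ 2 = ∑ i, Real.log (R (Function.update t j (t j + u)) i) -
          ∑ k, Function.update t j (t j + u) k + (∑ k, Function.update t j (t j + u) k) ^ 2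
      rw [h3]
      congr 2
      exact Finset.sum_congr rfl fun i _ => by rw [h1]
    have hmin : IsLocalMin G 0 := by
      refine Filter.Eventually.of_forall fun u => ?_
      show G 0 ≤ G u
      rw [hGF 0, hGF u, add_zero, Function.update_eq_self]
      exact ht _
    have hd : HasDerivAt G (∑ i, A i j * Real.exp (t j) / R t i - 1 + 2 * s) 0 := by
      have h1 : ∀ i ∈ (Finset.univ : Finset (Fin n)), HasDerivAt
          (fun u => Real.log (R t i + A i j * Real.exp (t j) * (Real.exp u - 1)))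
          (A i j * Real.exp (t j) / R t i) 0 := by
        intro i _
        have h2 : HasDerivAt (fun u => R t i + A i j * Real.exp (t j) * (Real.exp u - 1))
            (A i j * Real.exp (t j)) 0 := by
          have h3 := (((Real.hasDerivAt_exp 0).sub_const 1).const_mul
            (A i j * Real.exp (t j))).const_add (R t i)
          rw [Real.exp_zero, mul_one] at h3
          exact h3
        have h4 := h2.log (by rw [Real.exp_zero, sub_self, mul_zero, add_zero]; exact (hR t i).ne')
        rw [Real.exp_zero, sub_self, mul_zero, add_zero] at h4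
        exact h4
      have h5 := HasDerivAt.fun_sum h1
      have h6 : HasDerivAt (fun u : ℝ => s + u) 1 0 := (hasDerivAt_id 0).const_add s
      have h7 : HasDerivAt (fun u : ℝ => (s + u) ^ 2) (2 * s) 0 := by
        have := h6.fun_pow 2
        simpa using this
      exact (h5.sub h6).add h7
    exact hmin.hasDerivAt_eq_zero hd
  have hs0 : s = 0 := by
    have h1 : ∑ j, (∑ i, A i j * Real.exp (t j) / R t i - 1 + 2 * s) = 0 :=
      Finset.sum_eq_zero fun j _ => hder j
    rw [Finset.sum_add_distrib, Finset.sum_sub_distrib, Finset.sum_comm] at h1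
    have h2 : ∀ i, ∑ j, A i j * Real.exp (t j) / R t i = 1 := fun i => by
      rw [← Finset.sum_div]
      exact div_self (hR t i).ne'
    rw [Finset.sum_congr rfl fun i _ => h2 i] at h1
    simp only [Finset.sum_const, Finset.card_univ, Fintype.card_fin, nsmul_eq_mul, mul_one,
      sub_self, zero_add] at h1
    have : (n : ℝ) * 2 ≠ 0 := by positivity
    have h3 : (n : ℝ) * 2 * s = 0 := by linarith
    exact (mul_eq_zero.1 h3).resolve_left this
  refine ⟨fun i => (R t i)⁻¹, fun j => Real.exp (t j), fun i => inv_pos.2 (hR t i),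
    fun j => Real.exp_pos _, fun i => ?_, fun j => ?_⟩
  · have h1 : ∀ j, (R t i)⁻¹ * A i j * Real.exp (t j) = A i j * Real.exp (t j) / R t i := fun j => by
      rw [div_eq_mul_inv]
      ring
    rw [Finset.sum_congr rfl fun j _ => h1 j, ← Finset.sum_div]
    exact div_self (hR t i).ne'
  · have h1 : ∀ i, (R t i)⁻¹ * A i j * Real.exp (t j) = A i j * Real.exp (t j) / R t i := fun i => by
      rw [div_eq_mul_inv]
      ring
    rw [Finset.sum_congr rfl fun i _ => h1 i]
    have := hder j
    rw [hs0] at this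
    linarith

theorem per_scale {n : ℕ} (A : Matrix (Fin n) (Fin n) ℝ) (x y : Fin n → ℝ) :
    (Matrix.of fun i j => x i * A i j * y j).permanent = (∏ i, x i) * A.permanent * ∏ j, y j := by
  unfold Matrix.permanent
  rw [Finset.mul_sum, Finset.sum_mul]
  refine Finset.sum_congr rfl fun σ _ => ?_
  simp only [Matrix.of_apply, Finset.prod_mul_distrib]
  rw [Equiv.prod_comp σ x]

/-- **Lower bound.** -/
theorem log_per_div_ge {c C Λ : ℝ} (hc : 0 < c) (hC : 0 < C) (hΛ1 : -Real.log c ≤ Λ)
    (hΛ2 : Real.log C ≤ Λ) (hΛ3 : Real.log C - Real.log c ≤ Λ)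
    {n : ℕ} (hn : 0 < n) (A : Matrix (Fin n) (Fin n) ℝ) (h1 : ∀ i j, c ≤ A i j)
    (h2 : ∀ i j, A i j ≤ C) :
    n * (Real.log ((∑ i, ∑ j, A i j) / (n : ℝ) ^ 2) -
      Λ * (∑ i, |(n : ℝ)⁻¹ - (∑ j, A i j) / ∑ i, ∑ j, A i j| +
        ∑ j, |(n : ℝ)⁻¹ - (∑ i, A i j) / ∑ i, ∑ j, A i j|)) ≤
      Real.log (A.permanent / n.factorial) := by
  have hn0 : (0 : ℝ) < n := by exact_mod_cast hn
  have hne : Nonempty (Fin n) := ⟨⟨0, hn⟩⟩
  have hA : ∀ i j, 0 < A i j := fun i j => hc.trans_le (h1 i j)
  obtain ⟨x, y, hx, hy, hrow, hcol⟩ := sinkhorn hn A hc h1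
  set S := ∑ i, ∑ j, A i j with hS
  have hS0 : 0 < S := Finset.sum_pos (fun i _ => Finset.sum_pos (fun j _ => hA i j)
    Finset.univ_nonempty) Finset.univ_nonempty
  set Y := ∑ j, y j with hY
  set X := ∑ i, x i with hX
  have hY0 : 0 < Y := Finset.sum_pos (fun j _ => hy j) Finset.univ_nonempty
  have hX0 : 0 < X := Finset.sum_pos (fun j _ => hx j) Finset.univ_nonempty
  let u : Fin n → ℝ := fun i => x i * Y
  let v : Fin n → ℝ := fun j => n * y j / Y
  have hu0 : ∀ i, 0 < u i := fun i => mul_pos (hx i) hY0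
  have hv0 : ∀ j, 0 < v j := fun j => div_pos (mul_pos hn0 (hy j)) hY0
  have hu1 : ∀ i, c * u i ≤ 1 := by
    intro i
    rw [← hrow i]
    calc c * (x i * Y) = ∑ j, x i * c * y j := by
          rw [hY, Finset.mul_sum, Finset.mul_sum]
          exact Finset.sum_congr rfl fun j _ => by ring
      _ ≤ _ := Finset.sum_le_sum fun j _ =>
          mul_le_mul_of_nonneg_right (mul_le_mul_of_nonneg_left (h1 i j) (hx i).le) (hy j).le
  have hu2 : ∀ i, 1 ≤ C * u i := by
    intro i
    rw [← hrow i]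
    calc _ ≤ ∑ j, x i * C * y j := Finset.sum_le_sum fun j _ =>
          mul_le_mul_of_nonneg_right (mul_le_mul_of_nonneg_left (h2 i j) (hx i).le) (hy j).le
      _ = C * (x i * Y) := by
          rw [hY, Finset.mul_sum, Finset.mul_sum]
          exact Finset.sum_congr rfl fun j _ => by ring
  have hv1 : ∀ j, c * (X * y j) ≤ 1 := by
    intro j
    rw [← hcol j]
    calc c * (X * y j) = ∑ i, x i * c * y j := by
          rw [hX, Finset.sum_mul, Finset.mul_sum]
          exact Finset.sum_congr rfl fun j _ => by ring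
      _ ≤ _ := Finset.sum_le_sum fun i _ =>
          mul_le_mul_of_nonneg_right (mul_le_mul_of_nonneg_left (h1 i j) (hx i).le) (hy j).le
  have hv2 : ∀ j, 1 ≤ C * (X * y j) := by
    intro j
    rw [← hcol j]
    calc _ ≤ ∑ i, x i * C * y j := Finset.sum_le_sum fun i _ =>
          mul_le_mul_of_nonneg_right (mul_le_mul_of_nonneg_left (h2 i j) (hx i).le) (hy j).le
      _ = C * (X * y j) := by
          rw [hX, Finset.sum_mul, Finset.mul_sum]
          exact Finset.sum_congr rfl fun j _ => by ring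
  have hY1 : c * (X * Y) ≤ n := by
    calc c * (X * Y) = ∑ j, c * (X * y j) := by rw [hY, Finset.mul_sum, Finset.mul_sum]
      _ ≤ ∑ j : Fin n, (1 : ℝ) := Finset.sum_le_sum fun j _ => hv1 j
      _ = n := by simp
  have hY2 : (n : ℝ) ≤ C * (X * Y) := by
    calc (n : ℝ) = ∑ j : Fin n, (1 : ℝ) := by simp
      _ ≤ ∑ j, C * (X * y j) := Finset.sum_le_sum fun j _ => hv2 j
      _ = C * (X * Y) := by rw [hY, Finset.mul_sum, Finset.mul_sum]
  have hlu : ∀ i, |Real.log (u i)| ≤ Λ := by
    intro i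
    rw [abs_le]
    constructor
    · have h3 := Real.log_le_log one_pos (hu2 i)
      rw [Real.log_one, Real.log_mul hC.ne' (hu0 i).ne'] at h3
      linarith
    · have h3 := Real.log_le_log (mul_pos hc (hu0 i)) (hu1 i)
      rw [Real.log_one, Real.log_mul hc.ne' (hu0 i).ne'] at h3
      linarith
  have hlv : ∀ j, |Real.log (v j)| ≤ Λ := by
    intro j
    have h3 : Real.log (v j) = Real.log n + Real.log (y j) - Real.log Y := by
      show Real.log (n * y j / Y) = _
      rw [Real.log_div (mul_pos hn0 (hy j)).ne' hY0.ne', Real.log_mul hn0.ne' (hy j).ne']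
    have h4 := Real.log_le_log (mul_pos hc (mul_pos hX0 (hy j))) (hv1 j)
    rw [Real.log_one, Real.log_mul hc.ne' (mul_pos hX0 (hy j)).ne',
      Real.log_mul hX0.ne' (hy j).ne'] at h4
    have h5 := Real.log_le_log one_pos (hv2 j)
    rw [Real.log_one, Real.log_mul hC.ne' (mul_pos hX0 (hy j)).ne',
      Real.log_mul hX0.ne' (hy j).ne'] at h5
    have h6 := Real.log_le_log (mul_pos hc (mul_pos hX0 hY0)) hY1
    rw [Real.log_mul hc.ne' (mul_pos hX0 hY0).ne', Real.log_mul hX0.ne' hY0.ne'] at h6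
    have h7 := Real.log_le_log hn0 hY2
    rw [Real.log_mul hC.ne' (mul_pos hX0 hY0).ne', Real.log_mul hX0.ne' hY0.ne'] at h7
    rw [h3, abs_le]
    constructor <;> linarith
  -- the lower bound of the permanent
  have hB : (Matrix.of fun i j => x i * A i j * y j) ∈ doublyStochastic ℝ (Fin n) := by
    rw [mem_doublyStochastic_iff_sum]
    refine ⟨fun i j => ?_, fun i => ?_, fun j => ?_⟩
    · exact mul_nonneg (mul_nonneg (hx i).le (hA i j).le) (hy j).le
    · simpa using hrow i
    · simpa using hcol j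
  have hper := Pool.Agent.H450R3.Fg.vdw hB
  rw [per_scale, Pool.Agent.H450R3.Fg.GG_eq] at hper
  have hpx : 0 < ∏ i, x i := Finset.prod_pos fun i _ => hx i
  have hpy : 0 < ∏ j, y j := Finset.prod_pos fun i _ => hy i
  have hfac : (0 : ℝ) < n.factorial := by positivity
  have h3 := Real.log_le_log (by positivity) hper
  rw [Real.log_mul (mul_pos hpx (per_pos hA)).ne' hpy.ne',
    Real.log_mul hpx.ne' (per_pos hA).ne', Real.log_div hfac.ne' (by positivity),
    Real.log_pow, Real.log_prod (fun i _ => (hx i).ne'), Real.log_prod (fun i _ => (hy i).ne')] at h3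
  have h4 : ∑ i, Real.log (u i) = ∑ i, Real.log (x i) + n * Real.log Y := by
    have h5 : ∀ i, Real.log (u i) = Real.log (x i) + Real.log Y := fun i =>
      Real.log_mul (hx i).ne' hY0.ne'
    rw [Finset.sum_congr rfl fun i _ => h5 i, Finset.sum_add_distrib]
    simp
  have h5 : ∑ j, Real.log (v j) = n * Real.log n + ∑ j, Real.log (y j) - n * Real.log Y := by
    have h6 : ∀ j, Real.log (v j) = Real.log n + Real.log (y j) - Real.log Y := fun j => by
      show Real.log (n * y j / Y) = _
      rw [Real.log_div (mul_pos hn0 (hy j)).ne' hY0.ne', Real.log_mul hn0.ne' (hy j).ne']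
    rw [Finset.sum_congr rfl fun j _ => h6 j, Finset.sum_sub_distrib, Finset.sum_add_distrib]
    simp
  have h6 : -(∑ i, Real.log (u i) + ∑ j, Real.log (v j)) ≤
      Real.log (A.permanent / n.factorial) := by
    rw [Real.log_div (per_pos hA).ne' hfac.ne', h4, h5]
    linarith
  -- Jensen's inequality
  have h7 : ∑ i, (∑ j, A i j) * Real.log (u i) + ∑ j, (∑ i, A i j) * Real.log (v j) ≤
      S * Real.log ((n : ℝ) ^ 2 / S) := by
    have h8 := jensen_log (Finset.univ ×ˢ Finset.univ : Finset (Fin n × Fin n))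
      (fun p => A p.1 p.2) (fun p => u p.1 * v p.2) S hS0 (fun p _ => (hA _ _).le)
      (by rw [Finset.sum_product]) (fun p _ => mul_pos (hu0 _) (hv0 _))
    have h9 : ∑ p ∈ (Finset.univ ×ˢ Finset.univ : Finset (Fin n × Fin n)),
        A p.1 p.2 * (u p.1 * v p.2) = (n : ℝ) ^ 2 := by
      rw [Finset.sum_product]
      have h10 : ∀ i, ∑ j, A i j * (u i * v j) = n := by
        intro i
        have h11 : ∀ j, A i j * (u i * v j) = n * (x i * A i j * y j) := by
          intro j
          show A i j * (x i * Y * (n * y j / Y)) = _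
          field_simp
        rw [Finset.sum_congr rfl fun j _ => h11 j, ← Finset.mul_sum, hrow, mul_one]
      rw [Finset.sum_congr rfl fun i _ => h10 i]
      simp [sq]
    rw [h9, Finset.sum_product] at h8
    refine le_trans (le_of_eq ?_) h8
    have h10 : ∀ i j, A i j * Real.log (u i * v j) =
        A i j * Real.log (u i) + A i j * Real.log (v j) := fun i j => by
      rw [Real.log_mul (hu0 i).ne' (hv0 j).ne', mul_add]
    rw [Finset.sum_congr rfl fun i _ => Finset.sum_congr rfl fun j _ => h10 i j]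
    simp only [Finset.sum_add_distrib]
    congr 1
    · exact Finset.sum_congr rfl fun i _ => Finset.sum_mul _ _ _
    · rw [Finset.sum_comm]
      exact Finset.sum_congr rfl fun i _ => Finset.sum_mul _ _ _
  have h8 : ∑ i, (∑ j, A i j) / S * Real.log (u i) + ∑ j, (∑ i, A i j) / S * Real.log (v j) ≤
      -Real.log (S / (n : ℝ) ^ 2) := by
    have h9 : -Real.log (S / (n : ℝ) ^ 2) = Real.log ((n : ℝ) ^ 2 / S) := by
      rw [← Real.log_inv, inv_div]
    rw [h9]
    have h10 : ∑ i, (∑ j, A i j) / S * Real.log (u i) + ∑ j, (∑ i, A i j) / S * Real.log (v j) =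
        (∑ i, (∑ j, A i j) * Real.log (u i) + ∑ j, (∑ i, A i j) * Real.log (v j)) / S := by
      rw [add_div, Finset.sum_div, Finset.sum_div]
      congr 1
      · exact Finset.sum_congr rfl fun i _ => by ring
      · exact Finset.sum_congr rfl fun i _ => by ring
    rw [h10, div_le_iff₀ hS0]
    linarith
  have key : ∀ (r w : Fin n → ℝ), (∀ i, |Real.log (w i)| ≤ Λ) →
      (n : ℝ)⁻¹ * ∑ i, Real.log (w i) ≤
        ∑ i, r i / S * Real.log (w i) + Λ * ∑ i, |(n : ℝ)⁻¹ - r i / S| := by
    intro r w hw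
    rw [Finset.mul_sum, Finset.mul_sum, ← Finset.sum_add_distrib]
    refine Finset.sum_le_sum fun i _ => ?_
    have h9 : ((n : ℝ)⁻¹ - r i / S) * Real.log (w i) ≤ |(n : ℝ)⁻¹ - r i / S| * Λ := by
      refine (le_abs_self _).trans ?_
      rw [abs_mul]
      exact mul_le_mul_of_nonneg_left (hw i) (abs_nonneg _)
    linarith
  have k1 : (n : ℝ)⁻¹ * ∑ i, Real.log (u i) ≤
      ∑ i, (∑ j, A i j) / S * Real.log (u i) + Λ * ∑ i, |(n : ℝ)⁻¹ - (∑ j, A i j) / S| :=
    key (fun i => ∑ j, A i j) u hlu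
  have k2 : (n : ℝ)⁻¹ * ∑ j, Real.log (v j) ≤
      ∑ j, (∑ i, A i j) / S * Real.log (v j) + Λ * ∑ j, |(n : ℝ)⁻¹ - (∑ i, A i j) / S| :=
    key (fun j => ∑ i, A i j) v hlv
  have h9 : (n : ℝ)⁻¹ * (∑ i, Real.log (u i) + ∑ j, Real.log (v j)) ≤
      -Real.log (S / (n : ℝ) ^ 2) + Λ * (∑ i, |(n : ℝ)⁻¹ - (∑ j, A i j) / S| +
        ∑ j, |(n : ℝ)⁻¹ - (∑ i, A i j) / S|) := by
    rw [mul_add, mul_add]
    linarith
  have h10 := mul_le_mul_of_nonneg_left h9 hn0.le
  rw [← mul_assoc, mul_inv_cancel₀ hn0.ne', one_mul] at h10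
  refine le_trans ?_ h6
  linarith

end Pool.Agent.K4H40.Per
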