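import Pool.Agent.K4H58.XK.Spec

open Finset

namespace Pool.Agent.K4H58.XK

/-- PIECE H2: pairs of sets, A s ∩ B s = ∅, A s ∩ B t ≠ ∅ for s ≠ t, |A s| ≤ a, |B s| ≤ b: a crude bound on the number of
pairs. -/
theorem pairs_bound (a b : ℕ) : ∃ T : ℕ, ∀ {κ β : Type} [Fintype κ] [DecidableEq κ] [DecidableEq β]
    (A B : κ → Finset β), (∀ s, (A s).card ≤ a) → (∀ s, (B s).card ≤ b) →
    (∀ s, Disjoint (A s) (B s)) → (∀ s t, s ≠ t → ¬ Disjoint (A s) (B t)) → Fintype.card κ ≤ T := by
  classical
  induction a with
  | zero =>
    refine ⟨1, ?_⟩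
    intro κ β _ _ _ A B hA hB hAB hne
    rw [Fintype.card_le_one_iff]
    intro s t
    by_contra hst
    apply hne s t hst
    have : A s = ∅ := Finset.card_eq_zero.mp (Nat.le_zero.mp (hA s))
    rw [this]
    exact Finset.disjoint_empty_left _
  | succ a ih =>
    obtain ⟨T, hT⟩ := ih
    refine ⟨b * T + 1, ?_⟩
    intro κ β _ _ _ A B hA hB hAB hne
    by_cases hκ : IsEmpty κ
    · rw [Fintype.card_eq_zero]; omega
    rw [not_isEmpty_iff] at hκ
    obtain ⟨s0⟩ := hκ
    -- the pieces
    have hpiece : ∀ e ∈ B s0, ((univ : Finset κ).filter (fun s => e ∈ A s)).card ≤ T := by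
      intro e _
      have h := @hT {s : κ // e ∈ A s} β inferInstance inferInstance inferInstance
        (fun s => (A s.1).erase e) (fun s => B s.1)
        (by
          intro s
          have h1 := Finset.card_erase_of_mem s.2
          have h2 := hA s.1
          show ((A s.1).erase e).card ≤ a
          omega)
        (fun s => hB s.1)
        (fun s => Finset.disjoint_of_subset_left (Finset.erase_subset _ _) (hAB s.1))
        (by
          intro s t hst hd
          have hst' : s.1 ≠ t.1 := fun h => hst (Subtype.ext h)
          apply hne s.1 t.1 hst'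
          rw [Finset.disjoint_left] at hd ⊢
          intro x hx hxB
          by_cases hxe : x = e
          · subst hxe
            exact (Finset.disjoint_left.mp (hAB t.1)) t.2 hxB
          · exact hd (Finset.mem_erase.mpr ⟨hxe, hx⟩) hxB)
      rw [Fintype.card_subtype] at h
      exact h
    have hcov : (univ : Finset κ) ⊆ insert s0 ((B s0).biUnion
        (fun e => (univ : Finset κ).filter (fun s => e ∈ A s))) := by
      intro s _
      by_cases hs : s = s0
      · subst hs; exact Finset.mem_insert_self _ _
      · apply Finset.mem_insert_of_mem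
        have h := hne s s0 hs
        rw [Finset.not_disjoint_iff] at h
        obtain ⟨e, heA, heB⟩ := h
        rw [Finset.mem_biUnion]
        exact ⟨e, heB, Finset.mem_filter.mpr ⟨Finset.mem_univ _, heA⟩⟩
    calc Fintype.card κ = (univ : Finset κ).card := rfl
      _ ≤ (insert s0 ((B s0).biUnion (fun e => (univ : Finset κ).filter (fun s => e ∈ A s)))).card :=
          Finset.card_le_card hcov
      _ ≤ ((B s0).biUnion (fun e => (univ : Finset κ).filter (fun s => e ∈ A s))).card + 1 :=
          Finset.card_insert_le _ _
      _ ≤ (B s0).card * T + 1 := by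
          have := Finset.card_biUnion_le_card_mul (B s0)
            (fun e => (univ : Finset κ).filter (fun s => e ∈ A s)) T hpiece
          omega
      _ ≤ b * T + 1 := by
          have := Nat.mul_le_mul_right T (hB s0)
          omega

end Pool.Agent.K4H58.XK
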